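import Pool.Agent.K3h50.MB.Sum
import Pool.Agent.TH739.PB.Tan

/-!
# Almost everywhere convergence of unrestricted box averages from second moments
-/

set_option autoImplicit false

open Filter Topology MeasureTheory

noncomputable section

namespace Pool.Agent.K3h50.MB

open Pool.Agent.W761.Box (bx bx_bound)
open Pool.Agent.TH739.PB (ae_summable)

variable {k : ℕ}

/-- The Weierstrass inequality. -/
theorem one_sub_prod_le {ι : Type*} (s : Finset ι) {x : ι → ℝ} (h0 : ∀ i ∈ s, 0 ≤ x i)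
    (h1 : ∀ i ∈ s, x i ≤ 1) : 1 - ∏ i ∈ s, x i ≤ ∑ i ∈ s, (1 - x i) := by
  classical
  induction s using Finset.induction_on with
  | empty => simp
  | insert a s ha ih =>
    rw [Finset.prod_insert ha, Finset.sum_insert ha]
    have h2 := ih (fun i hi => h0 i (Finset.mem_insert_of_mem hi))
      fun i hi => h1 i (Finset.mem_insert_of_mem hi)
    have h3 := h0 a (Finset.mem_insert_self _ _)
    have h4 := h1 a (Finset.mem_insert_self _ _)
    have h5 : ∏ i ∈ s, x i ≤ 1 := Finset.prod_le_one (fun i hi => h0 i (Finset.mem_insert_of_mem hi))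
      fun i hi => h1 i (Finset.mem_insert_of_mem hi)
    nlinarith

/-- Comparison of the averages over two boxes. -/
theorem box_compare {u M : Fin k → ℕ} (hu : ∀ l, 1 ≤ u l) (huM : ∀ l, u l ≤ M l)
    {a : (Fin k → ℕ) → ℝ} (ha : ∀ n, |a n| ≤ 1) :
    |bx k M a - bx k u a| ≤ 2 * ∑ l, (1 - (u l : ℝ) / M l) := by
  classical
  have hu' : ∀ l, (1 : ℝ) ≤ u l := fun l => by exact_mod_cast hu l
  have hM' : ∀ l, (u l : ℝ) ≤ M l := fun l => by exact_mod_cast huM l
  set p : ℝ := ∏ l, (u l : ℝ) with hp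
  set P : ℝ := ∏ l, (M l : ℝ) with hP
  have hp0 : 0 < p := Finset.prod_pos fun l _ => by linarith [hu' l]
  have hpP : p ≤ P := Finset.prod_le_prod (fun l _ => by linarith [hu' l]) fun l _ => hM' l
  have hP0 : 0 < P := lt_of_lt_of_le hp0 hpP
  set A := Fintype.piFinset fun l => Finset.range (u l) with hA
  set B := Fintype.piFinset fun l => Finset.range (M l) with hB
  have hAB : A ⊆ B := by
    intro n hn
    rw [hA, Fintype.mem_piFinset] at hn
    rw [hB, Fintype.mem_piFinset]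
    exact fun l => Finset.mem_range.2 (lt_of_lt_of_le (Finset.mem_range.1 (hn l)) (huM l))
  have hcA : (A.card : ℝ) = p := by
    rw [hA, Fintype.card_piFinset]
    simp [hp]
  have hcB : (B.card : ℝ) = P := by
    rw [hB, Fintype.card_piFinset]
    simp [hP]
  have h1 : |∑ n ∈ B, a n - ∑ n ∈ A, a n| ≤ P - p := by
    rw [← Finset.sum_sdiff hAB, add_sub_cancel_right]
    refine (Finset.abs_sum_le_sum_abs _ _).trans ?_
    refine (Finset.sum_le_card_nsmul _ _ 1 fun n _ => ha n).trans ?_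
    rw [nsmul_one, Finset.card_sdiff_of_subset hAB, Nat.cast_sub (Finset.card_le_card hAB), hcA, hcB]
  have h2 : |∑ n ∈ A, a n| ≤ p := by
    refine (Finset.abs_sum_le_sum_abs _ _).trans ?_
    refine (Finset.sum_le_card_nsmul _ _ 1 fun n _ => ha n).trans ?_
    rw [nsmul_one, hcA]
  have h3 : bx k M a - bx k u a = P⁻¹ * (∑ n ∈ B, a n - ∑ n ∈ A, a n) +
      (P⁻¹ - p⁻¹) * ∑ n ∈ A, a n := by
    show P⁻¹ * ∑ n ∈ B, a n - p⁻¹ * ∑ n ∈ A, a n = _
    ring
  have h4 : P⁻¹ ≤ p⁻¹ := inv_anti₀ hp0 hpP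
  have h5 : |bx k M a - bx k u a| ≤ 2 * (1 - p / P) := by
    rw [h3]
    refine (abs_add_le _ _).trans ?_
    rw [abs_mul, abs_mul, abs_of_pos (inv_pos.2 hP0), abs_of_nonpos (sub_nonpos.2 h4)]
    have h6 := mul_le_mul_of_nonneg_left h1 (inv_pos.2 hP0).le
    have h7 : -(P⁻¹ - p⁻¹) * |∑ n ∈ A, a n| ≤ -(P⁻¹ - p⁻¹) * p :=
      mul_le_mul_of_nonneg_left h2 (by linarith)
    refine (add_le_add h6 h7).trans (le_of_eq ?_)
    field_simp
    ring
  refine h5.trans ?_
  have h8 : p / P = ∏ l, ((u l : ℝ) / M l) := by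
    rw [hp, hP, Finset.prod_div_distrib]
  rw [h8]
  refine mul_le_mul_of_nonneg_left (one_sub_prod_le _ (fun l _ => by positivity) fun l _ => ?_)
    (by norm_num)
  exact div_le_one_of_le₀ (hM' l) (Nat.cast_nonneg _)

/-- Interpolation between geometric boxes. -/
theorem interpolate (hk : 0 < k) {a : (Fin k → ℕ) → ℝ} (ha : ∀ n, |a n| ≤ 1)
    (h : ∀ q : ℕ, Tendsto (fun s : Fin k → ℕ =>
      bx k (fun l => ⌊(1 + 1 / ((q : ℝ) + 1)) ^ s l⌋₊) a) cofinite (𝓝 0)) :
    Tendsto (fun M => bx k M a) atTop (𝓝 0) := by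
  classical
  rw [Metric.tendsto_atTop]
  intro ε hε
  have hk' : (0 : ℝ) < k := by exact_mod_cast hk
  obtain ⟨q, hq⟩ := exists_nat_gt (6 * k / ε)
  have hq0 : (0 : ℝ) < (q : ℝ) + 1 := by positivity
  set c : ℝ := 1 + 1 / ((q : ℝ) + 1) with hc
  have hc1 : 1 < c := by
    rw [hc]
    have : (0 : ℝ) < 1 / ((q : ℝ) + 1) := by positivity
    linarith
  have hc0 : 0 < c := by linarith
  have hcε : 2 * k * (c - 1) < ε / 3 := by
    have h1 : 6 * k / ε < (q : ℝ) + 1 := by linarith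
    rw [div_lt_iff₀ hε] at h1
    have h2 : c - 1 = 1 / ((q : ℝ) + 1) := by rw [hc]; ring
    rw [h2, mul_one_div, div_lt_iff₀ hq0]
    linarith
  have hE := (Metric.tendsto_nhds.1 (h q)) (ε / 3) (by positivity)
  rw [Filter.eventually_cofinite] at hE
  obtain ⟨N₀, hN₀⟩ : ∃ N₀ : ℕ, ∀ s ∈ hE.toFinset, ∀ l, s l < N₀ := by
    refine ⟨(hE.toFinset.sup fun s => Finset.univ.sup fun l => s l) + 1, fun s hs l => ?_⟩
    have h1 : s l ≤ Finset.univ.sup fun l => s l :=
      Finset.le_sup (f := fun l => s l) (Finset.mem_univ l)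
    have h2 := Finset.le_sup (f := fun s : Fin k → ℕ => Finset.univ.sup fun l => s l) hs
    have h3 : s l ≤ hE.toFinset.sup fun s => Finset.univ.sup fun l => s l := h1.trans h2
    omega
  obtain ⟨N₁, hN₁⟩ := exists_nat_gt (max (c ^ N₀) (6 * k / ε))
  have hN₁a : c ^ N₀ < N₁ := lt_of_le_of_lt (le_max_left _ _) hN₁
  have hN₁b : 6 * k / ε < N₁ := lt_of_le_of_lt (le_max_right _ _) hN₁
  have hN₁0 : (0 : ℝ) < N₁ := lt_trans (by positivity) hN₁b
  refine ⟨fun _ => N₁, fun M hM => ?_⟩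
  have hM1 : ∀ l, (N₁ : ℝ) ≤ M l := fun l => by exact_mod_cast hM l
  have hM2 : ∀ l, (1 : ℝ) ≤ M l := fun l => by
    have h1 : 0 < N₁ := by exact_mod_cast hN₁0
    have h2 : N₁ ≤ M l := hM l
    have h3 : 1 ≤ M l := by omega
    exact_mod_cast h3
  choose s hs1 hs2 using fun l => exists_nat_pow_near (hM2 l) hc1
  set u : Fin k → ℕ := fun l => ⌊c ^ s l⌋₊ with hu
  have hsN : ∀ l, N₀ ≤ s l := by
    intro l
    by_contra hcon
    have h1 : s l + 1 ≤ N₀ := by omega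
    have h2 : c ^ (s l + 1) ≤ c ^ N₀ := pow_le_pow_right₀ hc1.le h1
    have := hs2 l
    linarith [hM1 l]
  have hsE : s ∉ hE.toFinset := fun hcon => by
    have h1 := hN₀ s hcon ⟨0, hk⟩
    have h2 := hsN ⟨0, hk⟩
    omega
  have hbu : |bx k u a| < ε / 3 := by
    rw [Set.Finite.mem_toFinset] at hsE
    have h1 : dist (bx k (fun l => ⌊c ^ s l⌋₊) a) 0 < ε / 3 := by
      by_contra hcon
      exact hsE hcon
    rwa [Real.dist_eq, sub_zero] at h1
  have hu1 : ∀ l, 1 ≤ u l := fun l => by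
    rw [hu]
    exact (Nat.one_le_floor_iff _).2 (one_le_pow₀ hc1.le)
  have huM : ∀ l, u l ≤ M l := fun l => by
    have h1 : (u l : ℝ) ≤ c ^ s l := Nat.floor_le (by positivity)
    have h2 : (u l : ℝ) ≤ M l := h1.trans (hs1 l)
    exact_mod_cast h2
  have hcmp := box_compare hu1 huM ha
  have hterm : ∀ l, 1 - (u l : ℝ) / M l ≤ (c - 1) + 1 / N₁ := by
    intro l
    have hMl : (0 : ℝ) < M l := by linarith [hM2 l]
    have h1 : c ^ s l - 1 ≤ u l := by
      have := Nat.lt_floor_add_one (c ^ s l)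
      have h2 : ((u l : ℕ) : ℝ) = (⌊c ^ s l⌋₊ : ℝ) := rfl
      linarith
    have h2 : (M l : ℝ) / c ≤ c ^ s l := by
      rw [div_le_iff₀ hc0, ← pow_succ]
      exact (hs2 l).le
    have h3 : 1 / c - 1 / N₁ ≤ (u l : ℝ) / M l := by
      have h4 : (1 : ℝ) / M l ≤ 1 / N₁ := one_div_le_one_div_of_le hN₁0 (hM1 l)
      have h5 : 1 / c - 1 / (M l : ℝ) = ((M l : ℝ) / c - 1) / M l := by
        field_simp
      have h6 : ((M l : ℝ) / c - 1) / M l ≤ (u l : ℝ) / M l :=
        div_le_div_of_nonneg_right (by linarith) hMl.le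
      linarith
    have h7 : 1 - 1 / c ≤ c - 1 := by
      have h8 : 1 - 1 / c = (c - 1) / c := by field_simp
      rw [h8]
      exact div_le_self (by linarith) hc1.le
    linarith
  have hsum : ∑ l : Fin k, (1 - (u l : ℝ) / M l) ≤ k * ((c - 1) + 1 / N₁) := by
    refine (Finset.sum_le_sum fun l _ => hterm l).trans (le_of_eq ?_)
    rw [Finset.sum_const, Finset.card_univ, Fintype.card_fin, nsmul_eq_mul]
  have hN₁ε : 2 * k * (1 / (N₁ : ℝ)) < ε / 3 := by
    rw [div_lt_iff₀ hε] at hN₁b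
    rw [mul_one_div, div_lt_iff₀ hN₁0]
    linarith
  rw [Real.dist_eq, sub_zero]
  have h9 : |bx k M a| ≤ |bx k M a - bx k u a| + |bx k u a| := by
    have := abs_add_le (bx k M a - bx k u a) (bx k u a)
    rwa [sub_add_cancel] at this
  nlinarith

section prob

variable {Z : Type} [MeasurableSpace Z] {P : Measure Z} [IsProbabilityMeasure P]

/-- **Almost everywhere convergence to zero of unrestricted box averages.** -/
theorem ae_box (hk : 0 < k) {ξ : (Fin k → ℕ) → Z → ℝ} (hξm : ∀ n, Measurable (ξ n))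
    (hξ : ∀ n z, |ξ n z| ≤ 1) {R : ℕ → ℝ} (hR0 : ∀ n, 0 ≤ R n)
    (hR : ∀ c : ℝ, 1 < c → Summable fun n : ℕ => ((n : ℝ) + 1) ^ (k - 1) * R ⌊c ^ n⌋₊)
    (hvar : ∀ M : Fin k → ℕ, (∀ l, 1 ≤ M l) → ∀ l, ∫ z, (bx k M fun n => ξ n z) ^ 2 ∂P ≤ R (M l)) :
    ∀ᵐ z ∂P, Tendsto (fun M => bx k M fun n => ξ n z) atTop (𝓝 0) := by
  have hbm : ∀ M : Fin k → ℕ, Measurable fun z => bx k M fun n => ξ n z := fun M =>
    (Finset.measurable_fun_sum _ fun n _ => hξm n).const_mul _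
  have hbb : ∀ (M : Fin k → ℕ) z, |bx k M fun n => ξ n z| ≤ 1 := fun M z =>
    bx_bound zero_le_one fun n => hξ n z
  have hae : ∀ q : ℕ, ∀ᵐ z ∂P, Tendsto (fun s : Fin k → ℕ =>
      bx k (fun l => ⌊(1 + 1 / ((q : ℝ) + 1)) ^ s l⌋₊) fun n => ξ n z) cofinite (𝓝 0) := by
    intro q
    set c : ℝ := 1 + 1 / ((q : ℝ) + 1) with hc
    have hc1 : 1 < c := by
      rw [hc]
      have : (0 : ℝ) < 1 / ((q : ℝ) + 1) := by positivity
      linarith
    have hs : Summable fun s : Fin k → ℕ =>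
        ∫ z, (bx k (fun l => ⌊c ^ s l⌋₊) fun n => ξ n z) ^ 2 ∂P := by
      refine summable_max hk (fun n => hR0 ⌊c ^ n⌋₊) (hR c hc1)
        (fun s => integral_nonneg fun z => sq_nonneg _) fun s l _ => ?_
      exact hvar (fun l => ⌊c ^ s l⌋₊) (fun i => (Nat.one_le_floor_iff _).2 (one_le_pow₀ hc1.le)) l
    have h1 := ae_summable (ν := P) (fun s : Fin k → ℕ => (hbm fun l => ⌊c ^ s l⌋₊).pow_const 2)
      (fun s z => sq_nonneg _) (fun s z => by
        rw [← sq_abs]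
        exact pow_le_one₀ (abs_nonneg _) (hbb _ z)) hs
    filter_upwards [h1] with z hz
    have h2 := hz.tendsto_cofinite_zero
    have h3 := h2.sqrt
    rw [Real.sqrt_zero] at h3
    rw [tendsto_zero_iff_abs_tendsto_zero]
    refine h3.congr fun s => ?_
    rw [Real.sqrt_sq_eq_abs]
    rfl
  filter_upwards [ae_all_iff.2 hae] with z hz
  exact interpolate hk (fun n => hξ n z) hz

end prob

end Pool.Agent.K3h50.MB
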