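import Pool.Agent.K3h50.MB.AE
import Pool.Agent.TH739.PS.Fix

/-!
# Unrestricted boxes: almost everywhere convergence from weighted second moments
-/

set_option autoImplicit false
set_option linter.unusedSectionVars false

open Filter Topology MeasureTheory

noncomputable section

namespace Pool.Agent.K3h50.MB

open Pool.Agent.W761.Box (bx bx_bound)
open Pool.Agent.TH739.PB (box mem_box box_card avr_box tannery proj)
open Pool.Agent.TH739.PA (LP avr)

variable {k : ℕ}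

section prob

variable {Z : Type} [MeasurableSpace Z] {P : Measure Z} [IsProbabilityMeasure P]

/-- **Almost everywhere convergence to zero of unrestricted box averages.** -/
theorem ae_box_gen (hk : 0 < k) {ξ : (Fin k → ℕ) → Z → ℝ} (hξm : ∀ n, Measurable (ξ n))
    (hξ : ∀ n z, |ξ n z| ≤ 1)
    (hs : ∀ c : ℝ, 1 < c → Summable fun s : Fin k → ℕ =>
        ∫ z, (bx k (fun l => ⌊c ^ s l⌋₊) fun n => ξ n z) ^ 2 ∂P) :
    ∀ᵐ z ∂P, Tendsto (fun M => bx k M fun n => ξ n z) atTop (𝓝 0) := by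
  have hbm : ∀ M : Fin k → ℕ, Measurable fun z => bx k M fun n => ξ n z := fun M =>
    (Finset.measurable_fun_sum _ fun n _ => hξm n).const_mul _
  have hbb : ∀ (M : Fin k → ℕ) z, |bx k M fun n => ξ n z| ≤ 1 := fun M z =>
    bx_bound zero_le_one fun n => hξ n z
  have hae : ∀ q : ℕ, ∀ᵐ z ∂P, Tendsto (fun s : Fin k → ℕ =>
      bx k (fun l => ⌊(1 + 1 / ((q : ℝ) + 1)) ^ s l⌋₊) fun n => ξ n z) cofinite (𝓝 0) := by
    intro q
    set c : ℝ := 1 + 1 / ((q : ℝ) + 1) with hc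
    have hc1 : 1 < c := by
      rw [hc]
      have : (0 : ℝ) < 1 / ((q : ℝ) + 1) := by positivity
      linarith
    have h1 := Pool.Agent.TH739.PB.ae_summable (ν := P)
      (fun s : Fin k → ℕ => (hbm fun l => ⌊c ^ s l⌋₊).pow_const 2)
      (fun s z => sq_nonneg _) (fun s z => by
        rw [← sq_abs]
        exact pow_le_one₀ (abs_nonneg _) (hbb _ z)) (hs c hc1)
    filter_upwards [h1] with z hz
    have h2 := hz.tendsto_cofinite_zero
    have h3 := h2.sqrt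
    rw [Real.sqrt_zero] at h3
    rw [tendsto_zero_iff_abs_tendsto_zero]
    refine h3.congr fun s => ?_
    rw [Real.sqrt_sq_eq_abs]
    rfl
  filter_upwards [ae_all_iff.2 hae] with z hz
  exact interpolate hk (fun n => hξ n z) hz

end prob

/-- the weights of the pairs of points -/
def wt (p : (Fin k → ℕ) × (Fin k → ℕ)) : ℝ := ∏ l, (1 + max (p.1 l : ℝ) (p.2 l)) ^ 2

theorem wt_pos (p : (Fin k → ℕ) × (Fin k → ℕ)) : 0 < wt p :=
  Finset.prod_pos fun l _ => by positivity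

/-- The sums over the geometric boxes. -/
theorem lac_box {q : (Fin k → ℕ) × (Fin k → ℕ) → ℝ} (hq : ∀ p, 0 ≤ q p)
    (hs : Summable fun p => q p / wt p) {c : ℝ} (hc : 1 < c) :
    Summable fun s : Fin k → ℕ => (∏ l, ((⌊c ^ s l⌋₊ : ℕ) : ℝ))⁻¹ ^ 2 *
      ∑ p ∈ box k (fun l => ⌊c ^ s l⌋₊) ×ˢ box k (fun l => ⌊c ^ s l⌋₊), q p := by
  classical
  set C : ℝ := 4 * (c ^ 5 * (c - 1)⁻¹ ^ 3) with hC
  have hc0 : 0 < c := by linarith
  have hC0 : 0 ≤ C := by
    have : 0 < c - 1 := by linarith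
    positivity
  -- one coordinate
  have hone : ∀ (N j : ℕ), ∑ n ∈ Finset.range N, (if j < ⌊c ^ n⌋₊ then
      (1 : ℝ) / (⌊c ^ n⌋₊ : ℝ) ^ 2 else 0) ≤ C / (1 + (j : ℝ)) ^ 2 := by
    intro N j
    have h1 := sum_div_nat_floor_pow_sq_le_div_sq N (j := (1 + (j : ℝ)) / 2) (by positivity) hc
    rw [← Finset.sum_filter]
    refine (Finset.sum_le_sum_of_subset_of_nonneg (fun n hn => ?_) fun n _ _ => by positivity).trans
      (h1.trans (le_of_eq ?_))
    · rw [Finset.mem_filter] at hn ⊢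
      refine ⟨hn.1, ?_⟩
      have h2 : j + 1 ≤ ⌊c ^ n⌋₊ := hn.2
      have h3 : (j : ℝ) + 1 ≤ ⌊c ^ n⌋₊ := by exact_mod_cast h2
      have h4 : (0 : ℝ) ≤ j := Nat.cast_nonneg j
      linarith
    · rw [hC]
      field_simp
      ring
  refine summable_of_sum_le (c := C ^ k * ∑' p, q p / wt p)
    (fun s => mul_nonneg (by positivity) (Finset.sum_nonneg fun p _ => hq p)) fun u => ?_
  obtain ⟨N, hN⟩ : ∃ N : ℕ, ∀ s ∈ u, ∀ l, s l < N := by
    refine ⟨(u.sup fun s => Finset.univ.sup fun l => s l) + 1, fun s hs l => ?_⟩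
    have h1 : s l ≤ Finset.univ.sup fun l => s l :=
      Finset.le_sup (f := fun l => s l) (Finset.mem_univ l)
    have h2 := Finset.le_sup (f := fun s : Fin k → ℕ => Finset.univ.sup fun l => s l) hs
    have h3 : s l ≤ u.sup fun s => Finset.univ.sup fun l => s l := h1.trans h2
    omega
  set Q := Fintype.piFinset fun _ : Fin k => Finset.range N with hQ
  have huQ : u ⊆ Q := fun s hs => by
    rw [hQ, Fintype.mem_piFinset]
    exact fun l => Finset.mem_range.2 (hN s hs l)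
  obtain ⟨T, hT⟩ : ∃ T : Finset ((Fin k → ℕ) × (Fin k → ℕ)), ∀ s ∈ Q,
      box k (fun l => ⌊c ^ s l⌋₊) ×ˢ box k (fun l => ⌊c ^ s l⌋₊) ⊆ T :=
    ⟨Q.biUnion fun s => box k (fun l => ⌊c ^ s l⌋₊) ×ˢ box k (fun l => ⌊c ^ s l⌋₊),
      fun s hs => Finset.subset_biUnion_of_mem (fun s : Fin k → ℕ =>
        box k (fun l => ⌊c ^ s l⌋₊) ×ˢ box k (fun l => ⌊c ^ s l⌋₊)) hs⟩
  have e1 : ∀ s ∈ Q, (∏ l, ((⌊c ^ s l⌋₊ : ℕ) : ℝ))⁻¹ ^ 2 *
      ∑ p ∈ box k (fun l => ⌊c ^ s l⌋₊) ×ˢ box k (fun l => ⌊c ^ s l⌋₊), q p =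
      ∑ p ∈ T, q p * ∏ l, (if max (p.1 l) (p.2 l) < ⌊c ^ s l⌋₊ then
        (1 : ℝ) / (⌊c ^ s l⌋₊ : ℝ) ^ 2 else 0) := by
    intro s hs
    generalize hg : (fun l => ⌊c ^ s l⌋₊) = v
    have hv : ∀ l, ⌊c ^ s l⌋₊ = v l := fun l => by rw [← hg]
    have hsub : box k v ×ˢ box k v ⊆ T := by
      rw [← hg]
      exact hT s hs
    simp only [hv]
    rw [Finset.mul_sum]
    have h5 : ∀ p ∈ box k v ×ˢ box k v, (∏ l, (v l : ℝ))⁻¹ ^ 2 * q p =
        q p * ∏ l, (if max (p.1 l) (p.2 l) < v l then (1 : ℝ) / (v l : ℝ) ^ 2 else 0) := by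
      intro p hp
      rw [Finset.mem_product, mem_box, mem_box] at hp
      have h1 : ∀ l, (if max (p.1 l) (p.2 l) < v l then
          (1 : ℝ) / (v l : ℝ) ^ 2 else 0) = (1 : ℝ) / (v l : ℝ) ^ 2 := fun l =>
        if_pos (max_lt (hp.1 l) (hp.2 l))
      simp only [h1]
      rw [mul_comm]
      congr 1
      rw [← Finset.prod_inv_distrib, ← Finset.prod_pow]
      refine Finset.prod_congr rfl fun l _ => ?_
      rw [one_div, inv_pow]
    rw [Finset.sum_congr rfl h5]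
    refine Finset.sum_subset hsub fun p _ hp => ?_
    rw [Finset.mem_product, mem_box, mem_box, not_and_or, not_forall, not_forall] at hp
    have h1 : ∃ l, ¬ max (p.1 l) (p.2 l) < v l := by
      rcases hp with ⟨l, hl⟩ | ⟨l, hl⟩
      · exact ⟨l, fun h => hl (lt_of_le_of_lt (le_max_left _ _) h)⟩
      · exact ⟨l, fun h => hl (lt_of_le_of_lt (le_max_right _ _) h)⟩
    obtain ⟨l, hl⟩ := h1
    rw [Finset.prod_eq_zero (Finset.mem_univ l) (if_neg hl), mul_zero]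
  refine (Finset.sum_le_sum_of_subset_of_nonneg huQ fun s _ _ => mul_nonneg (by positivity)
    (Finset.sum_nonneg fun p _ => hq p)).trans ?_
  rw [Finset.sum_congr rfl e1, Finset.sum_comm]
  have e2 : ∀ p ∈ T, (∑ s ∈ Q, q p * ∏ l, (if max (p.1 l) (p.2 l) < ⌊c ^ s l⌋₊ then
        (1 : ℝ) / (⌊c ^ s l⌋₊ : ℝ) ^ 2 else 0)) ≤ C ^ k * (q p / wt p) := by
    intro p _
    rw [← Finset.mul_sum]
    have h1 := Finset.prod_univ_sum (fun _ : Fin k => Finset.range N)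
      (fun (l : Fin k) (n : ℕ) => if max (p.1 l) (p.2 l) < ⌊c ^ n⌋₊ then
        (1 : ℝ) / (⌊c ^ n⌋₊ : ℝ) ^ 2 else 0)
    rw [← h1]
    have h2 : ∏ l : Fin k, ∑ n ∈ Finset.range N, (if max (p.1 l) (p.2 l) < ⌊c ^ n⌋₊ then
        (1 : ℝ) / (⌊c ^ n⌋₊ : ℝ) ^ 2 else 0) ≤ ∏ l : Fin k, (C / (1 + max (p.1 l : ℝ) (p.2 l)) ^ 2) := by
      refine Finset.prod_le_prod (fun l _ => Finset.sum_nonneg fun n _ => ?_) fun l _ => ?_
      · split_ifs
        · positivity
        · exact le_rfl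
      · have h3 := hone N (max (p.1 l) (p.2 l))
        rwa [Nat.cast_max] at h3
    refine (mul_le_mul_of_nonneg_left h2 (hq p)).trans (le_of_eq ?_)
    rw [Finset.prod_div_distrib, Finset.prod_const, Finset.card_univ, Fintype.card_fin, wt]
    ring
  refine (Finset.sum_le_sum e2).trans ?_
  rw [← Finset.mul_sum]
  exact mul_le_mul_of_nonneg_left (hs.sum_le_tsum _ fun p _ => div_nonneg (hq p) (wt_pos p).le)
    (pow_nonneg hC0 k)

/-- **Unrestricted box averages.** -/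
theorem LP_box (hk : 0 < k) {q : (Fin k → ℕ) × (Fin k → ℕ) → ℝ} (hq : ∀ p, 0 ≤ q p)
    (hs : Summable fun p => q p / wt p) : LP atTop (box k) q := by
  intro Z _ P _ ξ h1 h2 h3
  have h4 := ae_box_gen (P := P) hk h1 h2 fun c hc => by
    refine Summable.of_nonneg_of_le (fun s => integral_nonneg fun z => sq_nonneg _) (fun s => ?_)
      (lac_box hq hs hc)
    have e : ∀ z, (bx k (fun l => ⌊c ^ s l⌋₊) fun n => ξ n z) ^ 2 =
        (∏ l, ((⌊c ^ s l⌋₊ : ℕ) : ℝ))⁻¹ ^ 2 * (∑ n ∈ box k (fun l => ⌊c ^ s l⌋₊), ξ n z) ^ 2 := by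
      intro z
      show ((∏ l, ((⌊c ^ s l⌋₊ : ℕ) : ℝ))⁻¹ * ∑ n ∈ box k (fun l => ⌊c ^ s l⌋₊), ξ n z) ^ 2 = _
      rw [mul_pow]
    simp only [e]
    rw [integral_const_mul]
    exact mul_le_mul_of_nonneg_left (h3 _) (by positivity)
  filter_upwards [h4] with z hz
  simp only [avr_box]
  exact hz

/-- Averages of nonnegative numbers with summable weights. -/
theorem kron_box (hk : 0 < k) {β : (Fin k → ℕ) → ℝ} (h0 : ∀ n, 0 ≤ β n)
    (hs : Summable fun n : Fin k → ℕ => β n / ∏ l, (1 + (n l : ℝ))) :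
    Tendsto (fun M => avr (box k M) β) atTop (𝓝 0) := by
  have h1 := tannery (k := k) (D := fun _ => False) ⟨⟨0, hk⟩, not_false⟩ h0
    (hs.comp_injective (i := fun p : Pool.Agent.TH739.PB.Sub (k := k) fun _ => False => p.1)
      Subtype.val_injective)
  refine h1.congr fun M => ?_
  congr 1
  funext n
  congr 1
  funext l
  simp [Pool.Agent.TH739.PB.proj]

end Pool.Agent.K3h50.MB
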