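import Pool.Agent.K3h50.MB.GauK
import Pool.Agent.K3h50.MB.LPB

/-!
# Gaussian exponentials along one fibre
-/

set_option autoImplicit false
set_option linter.unusedSectionVars false

open Filter Topology MeasureTheory

noncomputable section

namespace Pool.Agent.K3h50.MB

open Pool.Agent.W761.Gauss (GaussSpace q bil ex ex_add ex_sum norm_ex cont_ex meas_ex q_smul q_neg
  bil_comm bil_self meas_exh conj_ex)
open Pool.Agent.TH739.PA (av avr LP avr_add av_ofReal avr_abs avr_mono av_add av_mul avr_mul)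

variable {Y : Type} [MeasurableSpace Y] {ν : Measure Y} [IsProbabilityMeasure ν]
  {H : Submodule ℝ (Y → ℝ)}

theorem q_nonneg (h : Y → ℝ) : 0 ≤ q ν h := integral_nonneg fun y => sq_nonneg _

theorem int_ex_sub (hH : GaussSpace ν H) {a b : Y → ℝ} (ha : a ∈ H) (hb : b ∈ H) :
    ∫ y, ex (a y) * (starRingEnd ℂ) (ex (b y)) ∂ν =
      ((Real.exp (-(q ν a + q ν b) / 2) * Real.exp (bil ν a b) : ℝ) : ℂ) := by
  have h1 := hH.int_ex (H.sub_mem ha hb)
  have e : ∀ y, ex (a y) * (starRingEnd ℂ) (ex (b y)) = ex ((a - b) y) := fun y => by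
    rw [conj_ex, ← ex_add, Pi.sub_apply, sub_eq_add_neg]
  simp only [e]
  rw [h1, hH.q_sub ha hb, ← Real.exp_add, Complex.ofReal_exp]
  congr 2
  ring

theorem int_ex_one (hH : GaussSpace ν H) {a : Y → ℝ} (ha : a ∈ H) :
    ∫ y, ex (a y) ∂ν = ((Real.exp (-(q ν a) / 2) : ℝ) : ℂ) := by
  rw [hH.int_ex ha, Complex.ofReal_exp]

theorem ex_integrable (hH : GaussSpace ν H) {a : Y → ℝ} (ha : a ∈ H) :
    Integrable (fun y => ex (a y)) ν :=
  Integrable.of_bound (meas_exh hH ha).aestronglyMeasurable 1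
    (Eventually.of_forall fun y => (norm_ex _).le)

/-- the second moment of a sum of centered exponentials -/
theorem sec_mom (hH : GaussSpace ν H) {ι : Type*} (s : Finset ι) {w : ι → Y → ℝ}
    (hw : ∀ n, w n ∈ H) (c : ι → ℝ) :
    ∫ y, ‖∑ n ∈ s, (c n : ℂ) * (ex (w n y) - (Real.exp (-(q ν (w n)) / 2) : ℝ))‖ ^ 2 ∂ν =
      ∑ i ∈ s, ∑ j ∈ s, (c i * Real.exp (-(q ν (w i)) / 2)) * (c j * Real.exp (-(q ν (w j)) / 2)) *
        (Real.exp (bil ν (w i) (w j)) - 1) := by
  set e : ι → ℝ := fun n => Real.exp (-(q ν (w n)) / 2) with he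
  have h1 : ∀ y, ((‖∑ n ∈ s, (c n : ℂ) * (ex (w n y) - (e n : ℝ))‖ ^ 2 : ℝ) : ℂ) =
      ∑ i ∈ s, ∑ j ∈ s, ((c i : ℂ) * (c j : ℂ)) * (ex (w i y) * (starRingEnd ℂ) (ex (w j y)) -
        (e j : ℂ) * ex (w i y) - (e i : ℂ) * ex ((-(w j)) y) + (e i : ℂ) * (e j : ℂ)) := by
    intro y
    have h2 : ((‖∑ n ∈ s, (c n : ℂ) * (ex (w n y) - (e n : ℝ))‖ ^ 2 : ℝ) : ℂ) =
        (∑ n ∈ s, (c n : ℂ) * (ex (w n y) - (e n : ℝ))) *
          (starRingEnd ℂ) (∑ n ∈ s, (c n : ℂ) * (ex (w n y) - (e n : ℝ))) := by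
      rw [Complex.mul_conj, Complex.normSq_eq_norm_sq]
    rw [h2, map_sum, Finset.sum_mul_sum]
    refine Finset.sum_congr rfl fun i _ => Finset.sum_congr rfl fun j _ => ?_
    rw [map_mul, map_sub, Complex.conj_ofReal, Complex.conj_ofReal, Pi.neg_apply, ← conj_ex]
    push_cast
    ring
  have h3 : ((∫ y, ‖∑ n ∈ s, (c n : ℂ) * (ex (w n y) - (e n : ℝ))‖ ^ 2 ∂ν : ℝ) : ℂ) =
      ((∑ i ∈ s, ∑ j ∈ s, (c i * e i) * (c j * e j) * (Real.exp (bil ν (w i) (w j)) - 1) : ℝ) : ℂ) := by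
    rw [← integral_complex_ofReal]
    simp only [h1]
    have hint : ∀ i j, Integrable (fun y => ((c i : ℂ) * (c j : ℂ)) *
        (ex (w i y) * (starRingEnd ℂ) (ex (w j y)) -
        (e j : ℂ) * ex (w i y) - (e i : ℂ) * ex ((-(w j)) y) + (e i : ℂ) * (e j : ℂ))) ν := by
      intro i j
      refine Integrable.const_mul ?_ _
      have i1 : Integrable (fun y => ex (w i y) * (starRingEnd ℂ) (ex (w j y))) ν := by
        have := ex_integrable hH (H.sub_mem (hw i) (hw j))
        refine this.congr (Eventually.of_forall fun y => ?_)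
        show ex ((w i - w j) y) = ex (w i y) * (starRingEnd ℂ) (ex (w j y))
        rw [conj_ex, ← ex_add, Pi.sub_apply, sub_eq_add_neg]
      exact ((i1.sub ((ex_integrable hH (hw i)).const_mul _)).sub
        ((ex_integrable hH (H.neg_mem (hw j))).const_mul _)).add (integrable_const _)
    rw [integral_finsetSum _ fun i _ => integrable_finsetSum _ fun j _ => hint i j]
    push_cast
    refine Finset.sum_congr rfl fun i _ => ?_
    rw [integral_finsetSum _ fun j _ => hint i j]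
    refine Finset.sum_congr rfl fun j _ => ?_
    have i1 : Integrable (fun y => ex (w i y) * (starRingEnd ℂ) (ex (w j y))) ν := by
      have := ex_integrable hH (H.sub_mem (hw i) (hw j))
      refine this.congr (Eventually.of_forall fun y => ?_)
      show ex ((w i - w j) y) = ex (w i y) * (starRingEnd ℂ) (ex (w j y))
      rw [conj_ex, ← ex_add, Pi.sub_apply, sub_eq_add_neg]
    have i2 := (ex_integrable hH (hw i)).const_mul (e j : ℂ)
    have i3 := (ex_integrable hH (H.neg_mem (hw j))).const_mul (e i : ℂ)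
    rw [integral_const_mul]
    have e1 : ∫ y, (ex (w i y) * (starRingEnd ℂ) (ex (w j y)) -
        (e j : ℂ) * ex (w i y) - (e i : ℂ) * ex ((-(w j)) y) + (e i : ℂ) * (e j : ℂ)) ∂ν =
        ∫ y, ex (w i y) * (starRingEnd ℂ) (ex (w j y)) ∂ν - (e j : ℂ) * ∫ y, ex (w i y) ∂ν -
          (e i : ℂ) * ∫ y, ex ((-(w j)) y) ∂ν + (e i : ℂ) * (e j : ℂ) := by
      have j1 := integral_sub i1 i2
      have j2 := integral_sub (i1.sub i2) i3
      have j3 := integral_add ((i1.sub i2).sub i3) (integrable_const (μ := ν) ((e i : ℂ) * (e j : ℂ)))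
      rw [← integral_const_mul, ← integral_const_mul]
      refine j3.trans ?_
      rw [integral_const, probReal_univ, one_smul]
      congr 1
      refine j2.trans ?_
      congr 1
    have e3 : ∫ y, ex (w i y) ∂ν = (e i : ℂ) := int_ex_one hH (hw i)
    have e4 : ∫ y, ex ((-(w j)) y) ∂ν = (e j : ℂ) := by
      rw [int_ex_one hH (H.neg_mem (hw j)), q_neg]
    rw [e1, int_ex_sub hH (hw i) (hw j), e3, e4]
    have e2 : Real.exp (-(q ν (w i) + q ν (w j)) / 2) = e i * e j := by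
      rw [he]
      simp only
      rw [← Real.exp_add]
      congr 1
      ring
    rw [e2]
    push_cast
    ring
  exact_mod_cast h3

/-- the Gram matrix of a family -/
theorem gram_psd (hH : GaussSpace ν H) {ι : Type} [Fintype ι] {w : ι → Y → ℝ}
    (hw : ∀ n, w n ∈ H) : (Matrix.of fun i j => bil ν (w i) (w j) : Matrix ι ι ℝ).PosSemidef := by
  refine psd_of (fun i j => bil_comm _ _) fun a => ?_
  have h1 := hH.q_sum Finset.univ (a := fun i => a i • w i) fun i _ => H.smul_mem _ (hw i)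
  have h2 : 0 ≤ q ν (∑ i, a i • w i) := q_nonneg _
  rw [h1] at h2
  refine h2.trans (le_of_eq ?_)
  refine Finset.sum_congr rfl fun i _ => Finset.sum_congr rfl fun j _ => ?_
  rw [Matrix.of_apply, bil, bil, ← integral_const_mul]
  congr 1
  funext y
  simp only [Pi.smul_apply, smul_eq_mul]
  ring

theorem bil_smul_smul (a b : ℝ) (u v : Y → ℝ) : bil ν (a • u) (b • v) = a * b * bil ν u v := by
  rw [bil, bil, ← integral_const_mul]
  congr 1
  funext y
  simp only [Pi.smul_apply, smul_eq_mul]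
  ring

/-- the difference of the Gram matrices -/
theorem gram_diff (hH : GaussSpace ν H) {m : ℕ} {ι : Type} [Fintype ι] {v : Fin m → ι → Y → ℝ}
    (hv : ∀ l n, v l n ∈ H) :
    (Matrix.of fun i j => (m : ℝ) * ∑ l, bil ν (v l i) (v l j) -
      bil ν (∑ l, v l i) (∑ l, v l j) : Matrix ι ι ℝ).PosSemidef := by
  refine psd_of (fun i j => ?_) fun a => ?_
  · simp only [Matrix.of_apply]
    rw [bil_comm (∑ l, v l i)]
    simp only [bil_comm (v _ i)]
  have hV : ∀ l, ∑ i, a i • v l i ∈ H := fun l => H.sum_mem fun i _ => H.smul_mem _ (hv l i)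
  have h1 := hH.q_identity (a := fun l : Fin m => ∑ i, a i • v l i) hV
  have h2 : 0 ≤ ∑ i : Fin m, ∑ j : Fin m,
      2⁻¹ * q ν ((fun l : Fin m => ∑ i, a i • v l i) i - (fun l : Fin m => ∑ i, a i • v l i) j) :=
    Finset.sum_nonneg fun i _ => Finset.sum_nonneg fun j _ =>
      mul_nonneg (by norm_num) (q_nonneg _)
  have h3 : ∀ l, q ν (∑ i, a i • v l i) = ∑ i, ∑ j, a i * a j * bil ν (v l i) (v l j) := by
    intro l
    rw [hH.q_sum Finset.univ (a := fun i => a i • v l i) fun i _ => H.smul_mem _ (hv l i)]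
    simp only [bil_smul_smul]
  have h4 : q ν (∑ l, ∑ i, a i • v l i) =
      ∑ i, ∑ j, a i * a j * bil ν (∑ l, v l i) (∑ l, v l j) := by
    have e : (∑ l, ∑ i, a i • v l i) = ∑ i, a i • ∑ l, v l i := by
      rw [Finset.sum_comm]
      exact Finset.sum_congr rfl fun i _ => (Finset.smul_sum).symm
    rw [e, hH.q_sum Finset.univ (a := fun i => a i • ∑ l, v l i)
      fun i _ => H.smul_mem _ (H.sum_mem fun l _ => hv l i)]
    simp only [bil_smul_smul]
  rw [Fintype.card_fin] at h1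
  simp only [h3] at h1
  have h5 : (m : ℝ) * ∑ l : Fin m, ∑ i, ∑ j, a i * a j * bil ν (v l i) (v l j) -
      ∑ i, ∑ j, a i * a j * bil ν (∑ l, v l i) (∑ l, v l j) =
      ∑ i, ∑ j, a i * a j * (Matrix.of fun i j => (m : ℝ) * ∑ l, bil ν (v l i) (v l j) -
      bil ν (∑ l, v l i) (∑ l, v l j) : Matrix ι ι ℝ) i j := by
    simp only [Matrix.of_apply, mul_sub, Finset.sum_sub_distrib]
    congr 1
    rw [Finset.sum_comm, Finset.mul_sum]
    refine Finset.sum_congr rfl fun i _ => ?_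
    rw [Finset.sum_comm, Finset.mul_sum]
    refine Finset.sum_congr rfl fun j _ => ?_
    rw [← Finset.mul_sum]
    ring
  rw [← h5]
  rw [h4] at h1
  linarith

theorem abs_bil_le (hH : GaussSpace ν H) {a b : Y → ℝ} (ha : a ∈ H) (hb : b ∈ H) :
    |bil ν a b| ≤ (q ν a + q ν b) / 2 := by
  have h1 := hH.q_add ha hb
  have h2 := hH.q_sub ha hb
  have h3 : 0 ≤ q ν (a + b) := q_nonneg _
  have h4 : 0 ≤ q ν (a - b) := q_nonneg _
  rw [abs_le]
  constructor <;> linarith

/-- **The second moment of sums of products of exponentials** is bounded by the correlations of the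
single factors. -/
theorem mom_le (hH : GaussSpace ν H) {m : ℕ} {ι : Type} (s : Finset ι) {v : Fin m → ι → Y → ℝ}
    (hv : ∀ l n, v l n ∈ H) {ρ : Fin m → ℝ} (hρ : ∀ l n, q ν (v l n) = ρ l) {c : ι → ℝ}
    (hc : ∀ n, |c n| ≤ 1) :
    ∫ y, ‖∑ n ∈ s, (c n : ℂ) * (ex ((∑ l, v l n) y) -
      (Real.exp (-(q ν (∑ l, v l n)) / 2) : ℝ))‖ ^ 2 ∂ν ≤
      ∑ p ∈ s ×ˢ s, Real.exp (m * ∑ l, ρ l) * (m * ∑ l, |bil ν (v l p.1) (v l p.2)|) := by
  classical
  set w : ι → Y → ℝ := fun n => ∑ l, v l n with hw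
  have hwH : ∀ n, w n ∈ H := fun n => H.sum_mem fun l _ => hv l n
  rw [sec_mom hH s (w := w) hwH c]
  set a : ι → ℝ := fun n => c n * Real.exp (-(q ν (w n)) / 2) with ha
  have ha1 : ∀ n, |a n| ≤ 1 := by
    intro n
    rw [ha]
    simp only
    rw [abs_mul, abs_of_pos (Real.exp_pos _)]
    refine mul_le_one₀ (hc n) (Real.exp_pos _).le (Real.exp_le_one_iff.mpr ?_)
    have := q_nonneg (ν := ν) (w n)
    linarith
  set K' : ι → ι → ℝ := fun i j => (m : ℝ) * ∑ l, bil ν (v l i) (v l j) with hK'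
  have key : ∑ i ∈ s, ∑ j ∈ s, a i * a j * Real.exp (bil ν (w i) (w j)) ≤
      ∑ i ∈ s, ∑ j ∈ s, a i * a j * Real.exp (K' i j) := by
    have h1 := exp_mono (n := s) (gram_psd hH (w := fun i : s => w i) fun i => hwH i)
      (gram_diff hH (m := m) (v := fun l (i : s) => v l i) fun l i => hv l i) fun i => a i
    simp only [Matrix.of_apply] at h1
    have e1 : ∀ F : ι → ι → ℝ, ∑ i : s, ∑ j : s, F i j = ∑ i ∈ s, ∑ j ∈ s, F i j := by
      intro F
      rw [← Finset.sum_coe_sort s fun i => ∑ j ∈ s, F i j]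
      refine Finset.sum_congr rfl fun i _ => ?_
      rw [← Finset.sum_coe_sort s fun j => F i j]
    have h2 := e1 fun i j => a i * a j * Real.exp (bil ν (w i) (w j))
    have h3 := e1 fun i j => a i * a j * Real.exp (K' i j)
    rw [← h2, ← h3]
    refine h1.trans (le_of_eq ?_)
    refine Finset.sum_congr rfl fun i _ => Finset.sum_congr rfl fun j _ => ?_
    congr 2
    show bil ν (w i) (w j) + ((m : ℝ) * ∑ l, bil ν (v l i) (v l j) -
      bil ν (∑ l, v l i) (∑ l, v l j)) = _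
    rw [hK', hw]
    ring
  have h1 : ∑ i ∈ s, ∑ j ∈ s, a i * a j * (Real.exp (bil ν (w i) (w j)) - 1) ≤
      ∑ i ∈ s, ∑ j ∈ s, a i * a j * (Real.exp (K' i j) - 1) := by
    simp only [mul_sub, mul_one, Finset.sum_sub_distrib]
    linarith
  refine h1.trans ?_
  rw [Finset.sum_product]
  refine Finset.sum_le_sum fun i _ => Finset.sum_le_sum fun j _ => ?_
  have h2 : |K' i j| ≤ m * ∑ l, |bil ν (v l i) (v l j)| := by
    rw [hK']
    simp only
    rw [abs_mul, abs_of_nonneg (Nat.cast_nonneg m)]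
    exact mul_le_mul_of_nonneg_left (Finset.abs_sum_le_sum_abs _ _) (Nat.cast_nonneg m)
  have h3 : (m : ℝ) * ∑ l, |bil ν (v l i) (v l j)| ≤ m * ∑ l, ρ l := by
    refine mul_le_mul_of_nonneg_left (Finset.sum_le_sum fun l _ => ?_) (Nat.cast_nonneg m)
    have h4 := abs_bil_le hH (hv l i) (hv l j)
    rw [hρ, hρ] at h4
    linarith
  refine (le_abs_self _).trans ?_
  rw [abs_mul]
  have h5 : |a i * a j| ≤ 1 := by
    rw [abs_mul]
    exact mul_le_one₀ (ha1 i) (abs_nonneg _) (ha1 j)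
  refine (mul_le_of_le_one_left (abs_nonneg _) h5).trans ?_
  refine (abs_exp_sub_one (h2.trans h3)).trans ?_
  exact mul_le_mul_of_nonneg_left h2 (Real.exp_pos _).le

end Pool.Agent.K3h50.MB
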