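import Pool.Agent.W761.Gauss.Dens
import Pool.Agent.W761.Gauss.Core

/-!
# Kernels of Gaussian exponentials
-/

set_option autoImplicit false
set_option linter.unusedSectionVars false

open Filter Topology MeasureTheory
open scoped Matrix

noncomputable section

namespace Pool.Agent.K3h50.MB

open Pool.Agent.W761.Gauss

section matrix

variable {n : Type} [Fintype n]

theorem psd_of {K : Matrix n n ℝ} (hs : ∀ i j, K i j = K j i)
    (h : ∀ a : n → ℝ, 0 ≤ ∑ i, ∑ j, a i * a j * K i j) : K.PosSemidef := by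
  rw [Matrix.posSemidef_iff_dotProduct_mulVec]
  refine ⟨Matrix.IsHermitian.ext fun i j => ?_, fun x => ?_⟩
  · rw [star_trivial]
    exact hs j i
  · refine (h x).trans (le_of_eq ?_)
    simp only [dotProduct, Matrix.mulVec, star_trivial, Finset.mul_sum]
    refine Finset.sum_congr rfl fun i _ => Finset.sum_congr rfl fun j _ => ?_
    ring

theorem psd_quad {K : Matrix n n ℝ} (h : K.PosSemidef) (a : n → ℝ) :
    0 ≤ ∑ i, ∑ j, a i * a j * K i j := by
  refine (h.dotProduct_mulVec_nonneg a).trans (le_of_eq ?_)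
  simp only [dotProduct, Matrix.mulVec, star_trivial, Finset.mul_sum]
  refine Finset.sum_congr rfl fun i _ => Finset.sum_congr rfl fun j _ => ?_
  ring

theorem psd_pow {K : Matrix n n ℝ} (hK : K.PosSemidef) (k : ℕ) :
    (Matrix.of fun i j => K i j ^ k : Matrix n n ℝ).PosSemidef := by
  induction k with
  | zero =>
    refine psd_of (fun i j => rfl) fun a => ?_
    simp only [Matrix.of_apply, pow_zero, mul_one]
    have : ∑ i, ∑ j, a i * a j = (∑ i, a i) * ∑ j, a j := by
      rw [Finset.sum_mul_sum]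
    rw [this]
    exact mul_self_nonneg _
  | succ k ih =>
    have h := ih.hadamard hK
    have e : (Matrix.of fun i j => K i j ^ (k + 1) : Matrix n n ℝ) =
        (Matrix.of fun i j => K i j ^ k : Matrix n n ℝ) ⊙ K := by
      ext i j
      simp [Matrix.hadamard_apply, pow_succ]
    rw [e]
    exact h

theorem psd_pow_diff {K L : Matrix n n ℝ} (hK : K.PosSemidef) (hL : L.PosSemidef) (k : ℕ) :
    (Matrix.of fun i j => (K i j + L i j) ^ k - K i j ^ k : Matrix n n ℝ).PosSemidef := by
  induction k with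
  | zero =>
    have e : (Matrix.of fun i j => (K i j + L i j) ^ 0 - K i j ^ 0 : Matrix n n ℝ) = 0 := by
      ext i j
      simp
    rw [e]
    exact Matrix.PosSemidef.zero
  | succ k ih =>
    have h1 := (hK.add hL).hadamard ih
    have h2 := hL.hadamard (psd_pow hK k)
    have h := h1.add h2
    have e : (Matrix.of fun i j => (K i j + L i j) ^ (k + 1) - K i j ^ (k + 1) : Matrix n n ℝ) =
        (K + L) ⊙ (Matrix.of fun i j => (K i j + L i j) ^ k - K i j ^ k : Matrix n n ℝ) +
          L ⊙ (Matrix.of fun i j => K i j ^ k : Matrix n n ℝ) := by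
      ext i j
      simp only [Matrix.add_apply, Matrix.hadamard_apply, Matrix.of_apply]
      ring
    rw [e]
    exact h

theorem hasSum_exp (x : ℝ) : HasSum (fun k : ℕ => x ^ k / (k.factorial : ℝ)) (Real.exp x) := by
  rw [Real.exp_eq_exp_ℝ]
  exact NormedSpace.expSeries_div_hasSum_exp x

/-- **Monotonicity of the exponential kernel.** -/
theorem exp_mono {K L : Matrix n n ℝ} (hK : K.PosSemidef) (hL : L.PosSemidef) (a : n → ℝ) :
    ∑ i, ∑ j, a i * a j * Real.exp (K i j) ≤ ∑ i, ∑ j, a i * a j * Real.exp (K i j + L i j) := by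
  have h1 : HasSum (fun k : ℕ => ∑ i, ∑ j, a i * a j *
      ((K i j + L i j) ^ k / (k.factorial : ℝ) - K i j ^ k / (k.factorial : ℝ)))
      (∑ i, ∑ j, a i * a j * (Real.exp (K i j + L i j) - Real.exp (K i j))) :=
    hasSum_sum fun i _ => hasSum_sum fun j _ => ((hasSum_exp _).sub (hasSum_exp _)).mul_left _
  have h2 := h1.nonneg fun k => by
    have h3 := psd_quad (psd_pow_diff hK hL k) a
    have e : ∑ i, ∑ j, a i * a j *
        ((K i j + L i j) ^ k / (k.factorial : ℝ) - K i j ^ k / (k.factorial : ℝ)) =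
        (k.factorial : ℝ)⁻¹ * ∑ i, ∑ j, a i * a j *
          (Matrix.of fun i j => (K i j + L i j) ^ k - K i j ^ k : Matrix n n ℝ) i j := by
      rw [Finset.mul_sum]
      refine Finset.sum_congr rfl fun i _ => ?_
      rw [Finset.mul_sum]
      refine Finset.sum_congr rfl fun j _ => ?_
      rw [Matrix.of_apply]
      ring
    rw [e]
    positivity
  have e : ∑ i, ∑ j, a i * a j * (Real.exp (K i j + L i j) - Real.exp (K i j)) =
      ∑ i, ∑ j, a i * a j * Real.exp (K i j + L i j) - ∑ i, ∑ j, a i * a j * Real.exp (K i j) := by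
    simp only [mul_sub, Finset.sum_sub_distrib]
  rw [e] at h2
  linarith

end matrix

theorem abs_exp_sub_one {t R : ℝ} (h : |t| ≤ R) : |Real.exp t - 1| ≤ Real.exp R * |t| := by
  have hR : 0 ≤ R := (abs_nonneg t).trans h
  rcases le_total 0 t with h0 | h0
  · rw [abs_of_nonneg h0] at h ⊢
    have h1 : 1 ≤ Real.exp t := Real.one_le_exp h0
    rw [abs_of_nonneg (by linarith)]
    have h2 := Real.add_one_le_exp (-t)
    have h3 : Real.exp t * Real.exp (-t) = 1 := by rw [← Real.exp_add]; simp
    have h4 : Real.exp t ≤ Real.exp R := Real.exp_le_exp.mpr h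
    have h5 : 0 < Real.exp t := Real.exp_pos t
    nlinarith [mul_le_mul_of_nonneg_left h2 h5.le, mul_le_mul_of_nonneg_right h4 h0]
  · have h1 : Real.exp t ≤ 1 := Real.exp_le_one_iff.mpr h0
    rw [abs_of_nonpos (by linarith), abs_of_nonpos h0]
    have h2 := Real.add_one_le_exp t
    have h3 : 1 ≤ Real.exp R := Real.one_le_exp hR
    nlinarith

end Pool.Agent.K3h50.MB
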