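import Pool.Agent.K3h50.MB.Mom
import Pool.Agent.TH739.PB.Gau

/-!
# Unrestricted boxes: extensions with mixing fibres
-/

set_option autoImplicit false
set_option linter.unusedSectionVars false

open Filter Topology MeasureTheory
open scoped ENNReal

noncomputable section

namespace Pool.Agent.K3h50.MB

open Pool.Agent.W761.Box (bx bxc)
open Pool.Agent.TH739.PB (box mem_box box_card avr_box av_box)
open Pool.Agent.TH739.PA (av avr av_ofReal PZ pr bar ext_all Good)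
open Pool.Agent.TH290.RM (Qr ten_BM PZ_step)
open Pool.Agent.W761.Gauss (BM BM_of_memLp)
open Pool.Agent.K3h50.KB (word ell_word shift_word good_word bxc_shift)

variable {k m K : ℕ} {X Y G V : Type} [Group G] [MeasurableSpace X] [MeasurableSpace Y]
  [NormedAddCommGroup V] [NormedSpace ℝ V] {μ : Measure X} {ν : Measure Y}

/-- The correlations of the functions in `𝒟` of order at most `K` along the fibres. -/
def MixRate (k K : ℕ) (μ : Measure X) (ν : Measure Y) (Θ : G →* Equiv.Perm (X × Y)) (ℓ : G → V)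
    (𝒟 : Set (Y → ℝ)) : Prop :=
  ∀ (p : ℕ) (g : Fin p → Y → ℝ), 2 ≤ p → p ≤ K → (∀ i, g i ∈ 𝒟) → ∃ r : ℝ → ℝ,
    (∀ x, 0 ≤ r x) ∧ Antitone r ∧
    Summable (fun h : ℕ => ((h : ℝ) + 1) ^ (k - 1) * r (2 ^ h)) ∧
    ∀ t : Fin p → G, ∫ x, |∫ y, ∏ i, g i (Θ (t i) (x, y)).2 ∂ν| ∂μ ≤
      ∑ i, ∑ j, if i = j then 0 else r ‖ℓ (t i) - ℓ (t j)‖

/-- Reindexing. -/
theorem mix_fin {Θ : G →* Equiv.Perm (X × Y)} {ℓ : G → V} {𝒟 : Set (Y → ℝ)}
    (hmix : MixRate k K μ ν Θ ℓ 𝒟)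
    {ι : Type} [Fintype ι] [DecidableEq ι] (h2 : 2 ≤ Fintype.card ι) (hK : Fintype.card ι ≤ K)
    (g : ι → Y → ℝ) (hg : ∀ i, g i ∈ 𝒟) : ∃ r : ℝ → ℝ,
      (∀ x, 0 ≤ r x) ∧ Antitone r ∧
      Summable (fun h : ℕ => ((h : ℝ) + 1) ^ (k - 1) * r (2 ^ h)) ∧
      ∀ t : ι → G, ∫ x, |∫ y, ∏ i, g i (Θ (t i) (x, y)).2 ∂ν| ∂μ ≤
        ∑ i, ∑ j, if i = j then 0 else r ‖ℓ (t i) - ℓ (t j)‖ := by
  let e := Fintype.equivFin ι
  obtain ⟨r, hr, hra, hs, h⟩ := hmix (Fintype.card ι) (fun i => g (e.symm i)) h2 hK fun i => hg _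
  refine ⟨r, hr, hra, hs, fun t => ?_⟩
  have h3 := h fun i => t (e.symm i)
  have e1 : ∀ x y, ∏ i, g (e.symm i) (Θ (t (e.symm i)) (x, y)).2 =
      ∏ i, g i (Θ (t i) (x, y)).2 := fun x y =>
    Equiv.prod_comp e.symm fun i => g i (Θ (t i) (x, y)).2
  simp only [e1] at h3
  refine h3.trans (le_of_eq ?_)
  rw [← Equiv.sum_comp e.symm fun i => ∑ j, if i = j then 0 else r ‖ℓ (t i) - ℓ (t j)‖]
  refine Finset.sum_congr rfl fun i _ => ?_
  rw [← Equiv.sum_comp e.symm fun j => if e.symm i = j then 0 else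
    r ‖ℓ (t (e.symm i)) - ℓ (t j)‖]
  refine Finset.sum_congr rfl fun j _ => ?_
  simp only [e.symm.injective.eq_iff]

/-- The basic functions. -/
theorem PZ_base [IsProbabilityMeasure μ] [IsProbabilityMeasure ν] (hk : 0 < k)
    {S : G →* Equiv.Perm X} (hS : ∀ g, MeasurePreserving (S g) μ μ)
    {Θ : G →* Equiv.Perm (X × Y)} (hΘ : ∀ g, MeasurePreserving (Θ g) (μ.prod ν) (μ.prod ν))
    (hfst : ∀ g z, (Θ g z).1 = S g z.1) {ℓ : G → V} {𝒟 : Set (Y → ℝ)}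
    (h𝒟 : ∀ g ∈ 𝒟, Measurable g ∧ (∀ y, |g y| ≤ 1) ∧ ∫ y, g y ∂ν = 0)
    (hmix : MixRate k K μ ν Θ ℓ 𝒟) (hK : 2 * m ≤ K) {t : Fin m → (Fin k → ℕ) → G}
    {lam : Fin m → V} {θ : Fin m → Fin k → V}
    (hτ : ∀ j n, ℓ (t j n) = lam j + ∑ l, (n l : ℝ) • θ j l)
    (hθ : ∀ j l, θ j l ≠ 0) (hθ' : ∀ i j, i ≠ j → ∀ l, θ i l ≠ θ j l)
    {g : Fin m → Y → ℝ} (hg : ∀ j, g j ∈ 𝒟 ∨ g j = fun _ => 1)
    {D : Fin m → Set X} (hD : ∀ j, MeasurableSet (D j)) :
    PZ atTop (box k) μ ν (fun j n => (Θ (t j n) : X × Y → X × Y))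
      (fun j z => (((D j).indicator (fun _ => (1 : ℝ)) z.1 * g j z.2 : ℝ) : ℂ)) := by
  classical
  have hgm : ∀ j, Measurable (g j) := fun j => by
    rcases hg j with h | h
    · exact (h𝒟 _ h).1
    · rw [h]
      exact measurable_const
  have hg1 : ∀ j y, |g j y| ≤ 1 := fun j y => by
    rcases hg j with h | h
    · exact (h𝒟 _ h).2.1 y
    · rw [h]
      simp
  let cc : (Fin k → ℕ) → X → ℝ := fun n x =>
    ∏ j, (D j).indicator (fun _ => (1 : ℝ)) (S (t j n) x)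
  let GG : (Fin k → ℕ) → X × Y → ℝ := fun n z => ∏ j, g j (Θ (t j n) z).2
  have hbar : ∀ j (z : X × Y), bar ν (fun z : X × Y =>
      (((D j).indicator (fun _ => (1 : ℝ)) z.1 * g j z.2 : ℝ) : ℂ)) z =
      (((D j).indicator (fun _ => (1 : ℝ)) z.1 * ∫ y, g j y ∂ν : ℝ) : ℂ) := by
    intro j z
    unfold Pool.Agent.TH739.PA.bar
    rw [integral_complex_ofReal]
    show ((∫ y, (D j).indicator (fun _ => (1 : ℝ)) z.1 * g j y ∂ν : ℝ) : ℂ) = _
    rw [integral_const_mul]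
  have hpr : ∀ n (z : X × Y), pr (fun j n => (Θ (t j n) : X × Y → X × Y)) (fun (j : Fin m) z =>
      (((D j).indicator (fun _ => (1 : ℝ)) z.1 * g j z.2 : ℝ) : ℂ)) n z =
      ((cc n z.1 * GG n z : ℝ) : ℂ) := by
    intro n z
    show ∏ j, _ = _
    show _ = (((∏ j, (D j).indicator (fun _ => (1 : ℝ)) (S (t j n) z.1)) *
      ∏ j, g j (Θ (t j n) z).2 : ℝ) : ℂ)
    rw [← Finset.prod_mul_distrib, Complex.ofReal_prod]
    refine Finset.prod_congr rfl fun j _ => ?_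
    show (((D j).indicator (fun _ => (1 : ℝ)) (Θ (t j n) z).1 * g j (Θ (t j n) z).2 : ℝ) : ℂ) = _
    rw [hfst]
  by_cases hall : ∀ j, g j = fun _ => 1
  · refine Eventually.of_forall fun z => ?_
    refine tendsto_const_nhds.congr fun N => ?_
    have e : (fun n => pr (fun j n => (Θ (t j n) : X × Y → X × Y)) (fun (j : Fin m) z =>
        (((D j).indicator (fun _ => (1 : ℝ)) z.1 * g j z.2 : ℝ) : ℂ)) n z -
        pr (fun j n => (Θ (t j n) : X × Y → X × Y)) (fun l => bar ν (fun z : X × Y =>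
        (((D l).indicator (fun _ => (1 : ℝ)) z.1 * g l z.2 : ℝ) : ℂ))) n z) = fun _ => 0 := by
      funext n
      rw [sub_eq_zero]
      unfold Pool.Agent.TH739.PA.pr
      refine Finset.prod_congr rfl fun j _ => ?_
      refine Eq.trans ?_ (hbar j _).symm
      simp [hall j]
    rw [e]
    simp [Pool.Agent.TH739.PA.av]
  -- some function has zero integral
  obtain ⟨j₀, hj₀⟩ := not_forall.mp hall
  have hj₀' : g j₀ ∈ 𝒟 := (hg j₀).resolve_right hj₀
  have hprbar : ∀ n (z : X × Y), pr (fun j n => (Θ (t j n) : X × Y → X × Y)) (fun l => bar ν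
      (fun z : X × Y => (((D l).indicator (fun _ => (1 : ℝ)) z.1 * g l z.2 : ℝ) : ℂ))) n z = 0 := by
    intro n z
    refine Finset.prod_eq_zero (Finset.mem_univ j₀) ((hbar j₀ _).trans ?_)
    rw [(h𝒟 _ hj₀').2.2, mul_zero, Complex.ofReal_zero]
  -- the index set
  let J : Type := {j : Fin m // g j ≠ fun _ => 1}
  have hJ : ∀ j : J, g j.1 ∈ 𝒟 := fun j => (hg j.1).resolve_right j.2
  have hcard : Fintype.card (J × Bool) = 2 * Fintype.card J := by
    rw [Fintype.card_prod, Fintype.card_bool, mul_comm]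
  have hJ1 : 1 ≤ Fintype.card J := Fintype.card_pos_iff.mpr ⟨⟨j₀, hj₀⟩⟩
  have hJm : Fintype.card J ≤ m := by
    have := Fintype.card_subtype_le fun j : Fin m => g j ≠ fun _ => 1
    rwa [Fintype.card_fin] at this
  obtain ⟨r, hr, hra, hs, hcor⟩ := mix_fin hmix (ι := J × Bool)
    (by omega) (by omega) (fun i => g i.1.1) fun i => hJ i.1
  have hq : ∀ n n' : Fin k → ℕ, ∫ x, |∫ y, GG n (x, y) * GG n' (x, y) ∂ν| ∂μ ≤
      ∑ i : J × Bool, ∑ i' : J × Bool, if i = i' then 0 else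
      r ‖ℓ (t i.1.1 (sel i.2 n n')) - ℓ (t i'.1.1 (sel i'.2 n n'))‖ := by
    intro n n'
    have h1 := hcor fun i => t i.1.1 (sel i.2 n n')
    have e1 : ∀ x y, ∏ i : J × Bool, g i.1.1 (Θ (t i.1.1 (sel i.2 n n')) (x, y)).2 =
        GG n (x, y) * GG n' (x, y) := by
      intro x y
      rw [Fintype.prod_prod_type]
      simp only [Fintype.prod_bool]
      show _ = (∏ j, g j (Θ (t j n) (x, y)).2) * ∏ j, g j (Θ (t j n') (x, y)).2
      rw [← Finset.prod_mul_distrib]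
      have e2 := Finset.prod_filter_of_ne (s := (Finset.univ : Finset (Fin m)))
        (f := fun j => g j (Θ (t j n) (x, y)).2 * g j (Θ (t j n') (x, y)).2)
        (p := fun j => g j ≠ fun _ => 1) fun j _ h => fun h4 => h (by simp [h4])
      have e3 : ∏ a : J, g a.1 (Θ (t a.1 n) (x, y)).2 * g a.1 (Θ (t a.1 n') (x, y)).2 =
          ∏ j ∈ Finset.univ.filter (fun j => g j ≠ fun _ => 1),
            g j (Θ (t j n) (x, y)).2 * g j (Θ (t j n') (x, y)).2 :=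
        (Finset.prod_subtype (Finset.univ.filter fun j => g j ≠ fun _ => 1)
          (by simp) fun j => g j (Θ (t j n) (x, y)).2 * g j (Θ (t j n') (x, y)).2).symm
      refine Eq.trans (Finset.prod_congr rfl fun j _ => ?_) (e3.trans e2)
      exact mul_comm _ _
    simp only [e1] at h1
    exact h1
  have hccm : ∀ n, Measurable (cc n) := fun n =>
    Finset.measurable_fun_prod _ fun j _ => (measurable_const.indicator (hD j)).comp
      (hS _).measurable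
  have hcc1 : ∀ n x, |cc n x| ≤ 1 := fun n x => by
    show |∏ j, _| ≤ 1
    rw [Finset.abs_prod]
    refine Finset.prod_le_one (fun j _ => abs_nonneg _) fun j _ => ?_
    by_cases h : S (t j n) x ∈ D j <;> simp [h]
  have hGGm : ∀ n, Measurable (GG n) := fun n =>
    Finset.measurable_fun_prod _ fun j _ => (hgm j).comp (measurable_snd.comp (hΘ _).measurable)
  have hGG1 : ∀ n z, |GG n z| ≤ 1 := fun n z => by
    show |∏ j, _| ≤ 1
    rw [Finset.abs_prod]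
    exact Finset.prod_le_one (fun j _ => abs_nonneg _) fun j _ => hg1 _ _
  -- the constant
  set Kl : Fin k → ℝ := fun l => ∑ i : J × Bool, ∑ i' : J × Bool,
    ((2 / ‖θ i.1.1 l‖ + 1) + (2 / ‖θ i'.1.1 l‖ + 1) +
        (2 / ‖θ i.1.1 l - θ i'.1.1 l‖ + 1)) with hKl
  have hKl0 : ∀ l, 0 ≤ Kl l := fun l => Finset.sum_nonneg fun i _ => Finset.sum_nonneg fun i' _ => by
    positivity
  set Kc : ℝ := ∑ l, Kl l with hKc
  have hKlc : ∀ l, Kl l ≤ Kc := fun l =>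
    Finset.single_le_sum (f := Kl) (fun l _ => hKl0 l) (Finset.mem_univ l)
  have hKc0 : 0 ≤ Kc := Finset.sum_nonneg fun l _ => hKl0 l
  have hLP := ae_box (P := μ.prod ν) hk (ξ := fun n z => cc n z.1 * GG n z)
    (fun n => ((hccm n).comp measurable_fst).mul (hGGm n))
    (fun n z => by
      rw [abs_mul]
      exact mul_le_one₀ (hcc1 _ _) (abs_nonneg _) (hGG1 _ _))
    (R := fun n => Kc * (r 0 * (Real.sqrt n)⁻¹ + r (Real.sqrt n)))
    (fun n => mul_nonneg hKc0 (add_nonneg (mul_nonneg (hr _) (by positivity)) (hr _)))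
    (fun c hc => by
      refine ((rate_summable hr hra hs hc).mul_left Kc).congr fun n => ?_
      ring)
    (fun M hM l => by
      refine (bx_moment hccm hcc1 hGGm hGG1 hq M).trans ?_
      refine (corr_bound (J := J) hr hra (τ := fun j n => ℓ (t j.1 n)) (lam := fun j => lam j.1)
        (θ := fun j => θ j.1) (fun j n => hτ j.1 n) (fun j l => hθ j.1 l)
        (fun i j hij l => hθ' i.1 j.1 (fun h => hij (Subtype.ext h)) l) hM l).trans ?_
      exact mul_le_mul_of_nonneg_right (hKlc l)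
        (add_nonneg (mul_nonneg (hr _) (by positivity)) (hr _)))
  filter_upwards [hLP] with z hz
  have h1 := (Complex.continuous_ofReal.tendsto 0).comp hz
  rw [Complex.ofReal_zero] at h1
  refine h1.congr fun N => ?_
  show ((bx k N fun n => cc n z.1 * GG n z : ℝ) : ℂ) = _
  rw [← avr_box, ← av_ofReal]
  congr 1
  funext n
  rw [hpr, hprbar, sub_zero]

/-- **Bounded functions.** -/
theorem PZ_all [IsProbabilityMeasure μ] [IsProbabilityMeasure ν] (hk : 0 < k)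
    {S : G →* Equiv.Perm X} (hS : ∀ g, MeasurePreserving (S g) μ μ)
    {Θ : G →* Equiv.Perm (X × Y)} (hΘ : ∀ g, MeasurePreserving (Θ g) (μ.prod ν) (μ.prod ν))
    (hfst : ∀ g z, (Θ g z).1 = S g z.1) {ℓ : G → V} {𝒟 : Set (Y → ℝ)}
    (h𝒟 : ∀ g ∈ 𝒟, Measurable g ∧ (∀ y, |g y| ≤ 1) ∧ ∫ y, g y ∂ν = 0)
    (hd : ∀ A, MeasurableSet A → ∀ ε : ℝ, 0 < ε →
      ∃ h ∈ Submodule.span ℝ (insert (fun _ => (1 : ℝ)) 𝒟),
        ∫ y, |A.indicator (fun _ => (1 : ℝ)) y - h y| ∂ν ≤ ε)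
    (hmix : MixRate k K μ ν Θ ℓ 𝒟) (hK : 2 * m ≤ K) {t : Fin m → (Fin k → ℕ) → G}
    {lam : Fin m → V} {θ : Fin m → Fin k → V}
    (hτ : ∀ j n, ℓ (t j n) = lam j + ∑ l, (n l : ℝ) • θ j l)
    (hθ : ∀ j l, θ j l ≠ 0) (hθ' : ∀ i j, i ≠ j → ∀ l, θ i l ≠ θ j l)
    (hgood : ∀ j, Good atTop (box k) (μ.prod ν) fun n => (Θ (t j n) : X × Y → X × Y))
    {F : Fin m → X × Y → ℂ} (hF : ∀ j, BM (F j)) :
    PZ atTop (box k) μ ν (fun j n => (Θ (t j n) : X × Y → X × Y)) F := by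
  refine ext_all (P := PZ atTop (box k) μ ν (fun j n => (Θ (t j n) : X × Y → X × Y)))
    (𝒬 := Qr X 𝒟) ?_ ?_ ?_ hF
  · rintro e ⟨D, g, hD, hg | hg, rfl⟩
    · exact ten_BM hD (h𝒟 g hg).1 (h𝒟 g hg).2.1
    · refine ten_BM hD (C := 1) (g := g) (by rw [hg]; exact measurable_const) fun y => ?_
      rw [hg]
      simp
  · intro f k' hf hQ u hu
    exact PZ_step (fun j n => hΘ _) hgood h𝒟 hd f k' hf hQ u hu
  · intro f hf
    choose D g hD hg e using hf
    have : f = fun j z => (((D j).indicator (fun _ => (1 : ℝ)) z.1 * g j z.2 : ℝ) : ℂ) :=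
      funext e
    rw [this]
    exact PZ_base hk hS hΘ hfst h𝒟 hmix hK hτ hθ hθ' hg hD

/-- lengths of words -/
theorem ell_word' {ℓ : G → V} (hℓ : ∀ g h, ℓ (g * h) = ℓ g + ℓ h) (g : G) (b : Fin k → G)
    (m : Fin k → ℕ) : ℓ (word g b m) = ℓ g + ∑ l, (m l : ℝ) • ℓ (b l) := by
  have h1 : ℓ 1 = 0 := by
    have := hℓ 1 1
    rw [mul_one] at this
    exact left_eq_add.1 this
  have hp : ∀ (a : G) (n : ℕ), ℓ (a ^ n) = (n : ℝ) • ℓ a := by
    intro a n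
    induction n with
    | zero => rw [pow_zero, h1, Nat.cast_zero, zero_smul]
    | succ n ih => rw [pow_succ, hℓ, ih, Nat.cast_succ, add_smul, one_smul]
  have h2 : ∀ (k : ℕ) (b : Fin k → G) (m : Fin k → ℕ),
      ℓ (List.ofFn fun l => b l ^ m l).prod = ∑ l, (m l : ℝ) • ℓ (b l) := by
    intro k
    induction k with
    | zero => intro b m; simp [h1]
    | succ k ih =>
      intro b m
      rw [List.ofFn_succ, List.prod_cons, hℓ, hp, ih (fun l => b l.succ) (fun l => m l.succ),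
        Fin.sum_univ_succ]
  rw [Pool.Agent.K3h50.KB.word, hℓ, h2]

/-- **The base is characteristic for unrestricted box averages.** -/
theorem mix_char [IsProbabilityMeasure μ] [IsProbabilityMeasure ν] (hk : 0 < k)
    {S : G →* Equiv.Perm X} (hS : ∀ g, MeasurePreserving (S g) μ μ)
    {Θ : G →* Equiv.Perm (X × Y)} (hΘ : ∀ g, MeasurePreserving (Θ g) (μ.prod ν) (μ.prod ν))
    (hfst : ∀ g z, (Θ g z).1 = S g z.1) {ℓ : G → V} (hℓ : ∀ g h, ℓ (g * h) = ℓ g + ℓ h)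
    {𝒟 : Set (Y → ℝ)}
    (h𝒟 : ∀ g ∈ 𝒟, Measurable g ∧ (∀ y, |g y| ≤ 1) ∧ ∫ y, g y ∂ν = 0)
    (hd : ∀ A, MeasurableSet A → ∀ ε : ℝ, 0 < ε →
      ∃ h ∈ Submodule.span ℝ (insert (fun _ => (1 : ℝ)) 𝒟),
        ∫ y, |A.indicator (fun _ => (1 : ℝ)) y - h y| ∂ν ≤ ε)
    (hmix : MixRate k K μ ν Θ ℓ 𝒟) (hK : 2 * m ≤ K) (g : Fin m → G) (b : Fin m → Fin k → G)
    (hb0 : ∀ j l, ℓ (b j l) ≠ 0) (hb : ∀ i j, i ≠ j → ∀ l, ℓ (b i l) ≠ ℓ (b j l))
    {f : Fin m → X × Y → ℂ} (hf : ∀ j, MemLp (f j) ∞ (μ.prod ν)) :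
    ∀ᵐ z ∂(μ.prod ν), Tendsto (fun M : Fin k → ℕ => (∏ l, (M l : ℂ))⁻¹ *
      ∑ n ∈ Fintype.piFinset (fun l => Finset.Icc 1 (M l)),
        (∏ j, f j (Θ (word (g j) (b j) n) z) -
          ∏ j, ∫ y, f j (S (word (g j) (b j) n) z.1, y) ∂ν)) atTop (𝓝 0) := by
  choose F hF hfF using fun j => BM_of_memLp (hf j)
  have hgood : ∀ j, Good atTop (box k) (μ.prod ν)
      fun n : Fin k → ℕ => (Θ (word (g j) (b j) fun l => n l + 1) : X × Y → X × Y) := by
    intro j H hH hC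
    have h1 := good_word (μ := μ.prod ν) (Φ := Θ) hΘ (g j) (b j) H hH hC
    simp only [avr_box]
    exact h1
  have h0 := PZ_all (m := m) hk hS hΘ hfst h𝒟 hd hmix hK
    (t := fun j n => word (g j) (b j) fun l => n l + 1)
    (lam := fun j => ℓ (g j) + ∑ l, ℓ (b j l)) (θ := fun j l => ℓ (b j l)) (fun j n => by
      rw [ell_word' hℓ, add_assoc, ← Finset.sum_add_distrib]
      congr 1
      refine Finset.sum_congr rfl fun l _ => ?_
      rw [Nat.cast_succ, add_smul, one_smul, add_comm]) hb0 hb hgood hF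
  have h1 : ∀ᵐ z ∂(μ.prod ν), ∀ (n : Fin k → ℕ) (j : Fin m), f j (Θ (word (g j) (b j) n) z) =
      F j (Θ (word (g j) (b j) n) z) := by
    rw [ae_all_iff]
    intro n
    rw [ae_all_iff]
    intro j
    exact (hΘ _).quasiMeasurePreserving.ae (hfF j)
  have h2 : ∀ j, ∀ᵐ x ∂μ, ∫ y, f j (x, y) ∂ν = ∫ y, F j (x, y) ∂ν := by
    intro j
    filter_upwards [Measure.ae_ae_of_ae_prod (hfF j)] with x hx
    exact integral_congr_ae hx
  have h3 : ∀ᵐ x ∂μ, ∀ (n : Fin k → ℕ) (j : Fin m), ∫ y, f j (S (word (g j) (b j) n) x, y) ∂ν =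
      ∫ y, F j (S (word (g j) (b j) n) x, y) ∂ν := by
    rw [ae_all_iff]
    intro n
    rw [ae_all_iff]
    intro j
    exact (hS _).quasiMeasurePreserving.ae (h2 j)
  have h3' : ∀ᵐ z ∂(μ.prod ν), ∀ (n : Fin k → ℕ) (j : Fin m),
      ∫ y, f j (S (word (g j) (b j) n) z.1, y) ∂ν =
      ∫ y, F j (S (word (g j) (b j) n) z.1, y) ∂ν := Measure.quasiMeasurePreserving_fst.ae h3
  filter_upwards [h0, h1, h3'] with z hz hz1 hz2
  refine hz.congr fun N => ?_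
  rw [av_box]
  have h4 := bxc_shift N fun n => (∏ j, f j (Θ (word (g j) (b j) n) z) -
    ∏ j, ∫ y, f j (S (word (g j) (b j) n) z.1, y) ∂ν)
  rw [← h4]
  congr 1
  funext n
  congr 1
  · exact Finset.prod_congr rfl fun j _ => (hz1 _ j).symm
  · refine Finset.prod_congr rfl fun j _ => ?_
    rw [hz2 _ j]
    show ∫ y, F j ((Θ (word (g j) (b j) fun l => n l + 1) z).1, y) ∂ν = _
    rw [hfst]

end Pool.Agent.K3h50.MB
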