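import Pool.Agent.K3h50.MB.LPB
import Pool.Agent.K3h50.MB.Main
import Pool.Agent.TH739.PS.Main

/-!
# Poisson extensions of group actions: unrestricted boxes
-/

set_option autoImplicit false
set_option linter.unusedSectionVars false

open Filter Topology MeasureTheory Set
open scoped ENNReal symmDiff

noncomputable section

namespace Pool.Agent.K3h50.MB

open Pool.Agent.W761.Box (bx bxc)
open Pool.Agent.TH739.PB (box mem_box box_card avr_box av_box)
open Pool.Agent.TH739.PA (av avr LP Good pe real_E PZ pr bar bar_BM Qf PZ_step ext_all ind_BM)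
open Pool.Agent.TH739.Poi (IsVoid)
open Pool.Agent.TH739.PS (base_fixed int_sec ae_summable)
open Pool.Agent.W761.Gauss (BM BM_of_memLp)
open Pool.Agent.K3h50.KB (word good_word bxc_shift)

/-- The action `Θ` of `G` on `X × Y` is a Poisson suspension, relative to the action `S` on the
probability space `(X, μ)`, of the action `R` on `X × W`: for almost every `x` the fibre maps
`w ↦ (R g (x, w))_2` preserve the (typically infinite) measure `κ`, and the `y ↦ (Θ g (x, y))_2` are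
the maps induced by them on the Poisson point process `(Y, ν)` with intensity `κ`, which is
described by the void events `E A`. -/
structure IsPoissonExt {G X W Y : Type} [Group G] [MeasurableSpace X] [MeasurableSpace W]
    [MeasurableSpace Y] (μ : Measure X) (S : G →* Equiv.Perm X) (κ : Measure W)
    (R : G →* Equiv.Perm (X × W)) (ν : Measure Y) (Θ : G →* Equiv.Perm (X × Y)) : Prop where
  base : ∀ g, MeasurePreserving (S g) μ μ
  meas : ∀ g, Measurable (R g)
  meas' : ∀ g, Measurable (Θ g)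
  fst : ∀ g z, (R g z).1 = S g z.1
  fst' : ∀ g z, (Θ g z).1 = S g z.1
  mp : ∀ g, ∀ᵐ x ∂μ, MeasurePreserving (fun w => (R g (x, w)).2) κ κ
  mp' : ∀ g, ∀ᵐ x ∂μ, MeasurePreserving (fun y => (Θ g (x, y)).2) ν ν
  void : ∃ E : Set W → Set Y, IsVoid κ id ν id E ∧ ∀ g, ∀ᵐ x ∂μ, ∀ A, MeasurableSet A → κ A ≠ ∞ →
    ((fun y => (Θ g (x, y)).2) ⁻¹' E A : Set Y) =ᵐ[ν] E ((fun w => (R g (x, w)).2) ⁻¹' A)

theorem one_le_prod_real {ι : Type*} (s : Finset ι) {f : ι → ℝ} (h : ∀ i ∈ s, 1 ≤ f i) :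
    1 ≤ ∏ i ∈ s, f i := by
  have h1 := Finset.prod_le_prod (s := s) (f := fun _ => (1 : ℝ)) (g := f)
    (fun _ _ => zero_le_one) h
  rwa [Finset.prod_const_one] at h1

section gen

variable {G X W : Type} [Group G] [MeasurableSpace X] [MeasurableSpace W] {μ : Measure X}
  [IsProbabilityMeasure μ] {κ : Measure W} [SFinite κ] {S : G →* Equiv.Perm X}
  {R : G →* Equiv.Perm (X × W)}

/-- an action over `S` with measure preserving fibre maps preserves the product measure -/
theorem act_mp (hS : ∀ g, MeasurePreserving (S g) μ μ) (hm : ∀ g, Measurable (R g))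
    (hf : ∀ g z, (R g z).1 = S g z.1)
    (hp : ∀ g, ∀ᵐ x ∂μ, MeasurePreserving (fun w => (R g (x, w)).2) κ κ) (g : G) :
    MeasurePreserving (R g) (μ.prod κ) (μ.prod κ) := by
  have h1 := (hS g).skew_product (μc := κ) (g := fun x w => (R g (x, w)).2)
    (measurable_snd.comp (hm g)) ((hp g).mono fun _ h => h.map_eq)
  have e : (R g : X × W → X × W) = fun p => (S g p.1, (R g (p.1, p.2)).2) := by
    funext p
    exact Prod.ext (hf g p) rfl
  rw [e]
  exact h1

theorem ovl_meas (hm : ∀ g, Measurable (R g)) {A B : Set W} (hA : MeasurableSet A)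
    (hB : MeasurableSet B) (g h : G) :
    Measurable fun x => κ.real ((fun w => (R g (x, w)).2) ⁻¹' A ∩ (fun w => (R h (x, w)).2) ⁻¹' B) := by
  have h1 : MeasurableSet ((R g : X × W → X × W) ⁻¹' (univ ×ˢ A) ∩
      (R h : X × W → X × W) ⁻¹' (univ ×ˢ B)) :=
    ((hm g) (MeasurableSet.univ.prod hA)).inter ((hm h) (MeasurableSet.univ.prod hB))
  have h2 : (fun x => κ.real ((fun w => (R g (x, w)).2) ⁻¹' A ∩ (fun w => (R h (x, w)).2) ⁻¹' B)) =
      fun x => (κ (Prod.mk x ⁻¹' ((R g : X × W → X × W) ⁻¹' (univ ×ˢ A) ∩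
        (R h : X × W → X × W) ⁻¹' (univ ×ˢ B)))).toReal := by
    funext x
    rw [measureReal_def]
    congr 2
    ext w
    simp
  rw [h2]
  exact (measurable_measure_prodMk_left h1).ennreal_toReal

theorem ovl_int (hS : ∀ g, MeasurePreserving (S g) μ μ) (hm : ∀ g, Measurable (R g))
    (hf : ∀ g z, (R g z).1 = S g z.1)
    (hp : ∀ g, ∀ᵐ x ∂μ, MeasurePreserving (fun w => (R g (x, w)).2) κ κ)
    {A B : Set W} (hA : MeasurableSet A) (hB : MeasurableSet B) (hAf : κ A ≠ ∞) (g h : G) :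
    ∫ x, κ.real ((fun w => (R g (x, w)).2) ⁻¹' A ∩ (fun w => (R h (x, w)).2) ⁻¹' B) ∂μ =
      (μ.prod κ).real ((R g : X × W → X × W) ⁻¹' (univ ×ˢ A) ∩
        (R h : X × W → X × W) ⁻¹' (univ ×ˢ B)) := by
  have h1 : MeasurableSet ((R g : X × W → X × W) ⁻¹' (univ ×ˢ A) ∩
      (R h : X × W → X × W) ⁻¹' (univ ×ˢ B)) :=
    ((hm g) (MeasurableSet.univ.prod hA)).inter ((hm h) (MeasurableSet.univ.prod hB))
  have h2 : (μ.prod κ) ((R g : X × W → X × W) ⁻¹' (univ ×ˢ A) ∩
      (R h : X × W → X × W) ⁻¹' (univ ×ˢ B)) ≠ ∞ := by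
    refine ne_top_of_le_ne_top ?_ (measure_mono inter_subset_left)
    rw [(act_mp hS hm hf hp g).measure_preimage (MeasurableSet.univ.prod hA).nullMeasurableSet,
      Measure.prod_prod, measure_univ, one_mul]
    exact hAf
  rw [← int_sec h1 h2]
  refine integral_congr_ae (Eventually.of_forall fun x => ?_)
  show κ.real _ = κ.real _
  congr 1
  ext w
  simp

theorem ovl_le (hp : ∀ g, ∀ᵐ x ∂μ, MeasurePreserving (fun w => (R g (x, w)).2) κ κ) {A : Set W}
    (hA : MeasurableSet A) (hAf : κ A ≠ ∞) (g : G) : ∀ᵐ x ∂μ, ∀ C : Set W,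
    κ.real ((fun w => (R g (x, w)).2) ⁻¹' A ∩ C) ≤ κ.real A := by
  filter_upwards [hp g] with x hx C
  have h1 : κ ((fun w => (R g (x, w)).2) ⁻¹' A) = κ A := hx.measure_preimage hA.nullMeasurableSet
  refine (measureReal_mono inter_subset_left (by rw [h1]; exact hAf)).trans (le_of_eq ?_)
  rw [measureReal_def, h1, measureReal_def]

end gen

section main

variable {G X W Y : Type} [Group G] [MeasurableSpace X] [MeasurableSpace W] [MeasurableSpace Y]
  {μ : Measure X} [IsProbabilityMeasure μ] {κ : Measure W} [SFinite κ] {ν : Measure Y}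
  [IsProbabilityMeasure ν] {S : G →* Equiv.Perm X} {R : G →* Equiv.Perm (X × W)}
  {Θ : G →* Equiv.Perm (X × Y)} {m k : ℕ}

/-- The basic functions. -/
theorem PZ_base_rel (hk : 0 < k) (hP : IsPoissonExt μ S κ R ν Θ) {E : Set W → Set Y}
    (hE : IsVoid κ id ν id E)
    (hv : ∀ g, ∀ᵐ x ∂μ, ∀ A, MeasurableSet A → κ A ≠ ∞ →
      ((fun y => (Θ g (x, y)).2) ⁻¹' E A : Set Y) =ᵐ[ν] E ((fun w => (R g (x, w)).2) ⁻¹' A))
    {t : Fin m → (Fin k → ℕ) → G}
    {A : Fin m → Set W} (hA : ∀ j, MeasurableSet (A j)) (hAf : ∀ j, κ (A j) ≠ ∞)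
    (hself : ∀ j, Summable fun p : (Fin k → ℕ) × (Fin k → ℕ) =>
      (μ.prod κ).real ((R (t j p.1) : X × W → X × W) ⁻¹' (univ ×ˢ A j) ∩
        (R (t j p.2) : X × W → X × W) ⁻¹' (univ ×ˢ A j)) / wt p)
    (hcross : ∀ i j, i ≠ j → Summable fun n : Fin k → ℕ =>
      (μ.prod κ).real ((R (t i n) : X × W → X × W) ⁻¹' (univ ×ˢ A i) ∩
        (R (t j n) : X × W → X × W) ⁻¹' (univ ×ˢ A j)) / ∏ l, (1 + (n l : ℝ)))
    {D : Fin m → Set X} (hD : ∀ j, MeasurableSet (D j)) :
    PZ atTop (box k) μ ν (fun j n => (Θ (t j n) : X × Y → X × Y))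
      (fun j => (D j ×ˢ E (A j)).indicator fun _ => (1 : ℂ)) := by
  have hT := act_mp hP.base hP.meas' hP.fst' hP.mp'
  have hF : ∀ j, BM ((D j ×ˢ E (A j)).indicator fun _ => (1 : ℂ)) := fun j =>
    ind_BM ((hD j).prod (hE.meas _ (hA j) (hAf j))) 1
  have hmeas : ∀ F : Fin m → X × Y → ℂ, (∀ j, BM (F j)) → ∀ n : Fin k → ℕ,
      Measurable (pr (fun j n => (Θ (t j n) : X × Y → X × Y)) F n) := fun F hF n =>
    Finset.measurable_fun_prod _ fun j _ => (hF j).1.comp (hT _).measurable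
  refine (Measure.ae_prod_mem_iff_ae_ae_mem (μ := μ) (ν := ν)
    (s := {z : X × Y | Tendsto (fun N : Fin k → ℕ => av (box k N) fun n =>
      pr (fun j n => (Θ (t j n) : X × Y → X × Y))
        (fun j => (D j ×ˢ E (A j)).indicator fun _ => (1 : ℂ)) n z -
      pr (fun j n => (Θ (t j n) : X × Y → X × Y)) (fun l => bar ν ((D l ×ˢ E (A l)).indicator
        fun _ => (1 : ℂ))) n z) atTop (𝓝 0)}) ?_).mpr ?_
  · refine measurableSet_tendsto_fun (fun N => ?_) measurable_const
    unfold Pool.Agent.TH739.PA.av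
    exact (Finset.measurable_fun_sum _ fun n _ => (hmeas _ hF n).sub
      (hmeas _ (fun j => bar_BM (hF j)) n)).const_mul _
  have h1 : ∀ᵐ x ∂μ, ∀ j, Summable fun p : (Fin k → ℕ) × (Fin k → ℕ) =>
      κ.real ((fun w => (R (t j p.1) (x, w)).2) ⁻¹' A j ∩
        (fun w => (R (t j p.2) (x, w)).2) ⁻¹' A j) / wt p := by
    refine ae_all_iff.mpr fun j => ae_summable (C := κ.real (A j))
      (fun p => (ovl_meas hP.meas (hA j) (hA j) _ _).div_const _)
      (fun p x => div_nonneg measureReal_nonneg (wt_pos p).le) (fun p => ?_) ?_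
    · filter_upwards [ovl_le hP.mp (hA j) (hAf j) (t j p.1)] with x hx
      refine (div_le_self measureReal_nonneg ?_).trans (hx _)
      refine one_le_prod_real _ fun l _ => ?_
      have h3 : (0 : ℝ) ≤ max (p.1 l : ℝ) (p.2 l) := le_max_of_le_left (Nat.cast_nonneg _)
      exact one_le_pow₀ (by linarith)
    · simp only [integral_div]
      refine (hself j).congr fun p => ?_
      rw [ovl_int hP.base hP.meas hP.fst hP.mp (hA j) (hA j) (hAf j)]
  have h2 : ∀ᵐ x ∂μ, ∀ i j, i ≠ j → Tendsto (fun N : Fin k → ℕ => avr (box k N) fun n =>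
      κ.real ((fun w => (R (t i n) (x, w)).2) ⁻¹' A i ∩
        (fun w => (R (t j n) (x, w)).2) ⁻¹' A j)) atTop (𝓝 0) := by
    refine ae_all_iff.mpr fun i => ae_all_iff.mpr fun j => ?_
    by_cases hij : i = j
    · exact Eventually.of_forall fun x h => absurd hij h
    · have h3 : ∀ᵐ x ∂μ, Summable fun n : Fin k → ℕ =>
          κ.real ((fun w => (R (t i n) (x, w)).2) ⁻¹' A i ∩
            (fun w => (R (t j n) (x, w)).2) ⁻¹' A j) / ∏ l, (1 + (n l : ℝ)) := by
        refine ae_summable (C := κ.real (A i))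
          (fun p => (ovl_meas hP.meas (hA i) (hA j) _ _).div_const _)
          (fun p x => div_nonneg measureReal_nonneg (Finset.prod_nonneg fun l _ => by positivity))
          (fun p => ?_) ?_
        · filter_upwards [ovl_le hP.mp (hA i) (hAf i) (t i p)] with x hx
          refine (div_le_self measureReal_nonneg ?_).trans (hx _)
          refine one_le_prod_real _ fun l _ => ?_
          have h3 : (0 : ℝ) ≤ p l := Nat.cast_nonneg _
          linarith
        · simp only [integral_div]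
          refine (hcross i j hij).congr fun p => ?_
          rw [ovl_int hP.base hP.meas hP.fst hP.mp (hA i) (hA j) (hAf i)]
      filter_upwards [h3] with x hx _
      exact kron_box hk (fun n => measureReal_nonneg) hx
  have h3 : ∀ᵐ x ∂μ, ∀ j (n : Fin k → ℕ), MeasurePreserving
      (fun w => (R (t j n) (x, w)).2) κ κ :=
    ae_all_iff.mpr fun j => ae_all_iff.mpr fun n => hP.mp _
  have h4 : ∀ᵐ x ∂μ, ∀ j (n : Fin k → ℕ), ∀ A, MeasurableSet A → κ A ≠ ∞ →
      ((fun y => (Θ (t j n) (x, y)).2) ⁻¹' E A : Set Y) =ᵐ[ν]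
        E ((fun w => (R (t j n) (x, w)).2) ⁻¹' A) :=
    ae_all_iff.mpr fun j => ae_all_iff.mpr fun n => hv _
  filter_upwards [h1, h2, h3, h4] with x hx1 hx2 hx3 hx4
  have h5 := base_fixed (m := m) (𝔣 := atTop) (Bx := box k) hE
    (C := fun j n => (fun w => (R (t j n) (x, w)).2) ⁻¹' A j)
    (fun j n => (hx3 j n).measurable (hA j))
    (A := A) (fun j n => (hx3 j n).measure_preimage (hA j).nullMeasurableSet) hAf
    (b := fun j n y => (Θ (t j n) (x, y)).2) (fun j n => hx4 j n _ (hA j) (hAf j))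
    (by
      refine LP_box hk (fun p => mul_nonneg (Nat.cast_nonneg _)
        (Finset.sum_nonneg fun j _ => measureReal_nonneg)) ?_
      have h2 := (summable_sum (s := Finset.univ) fun j _ => hx1 j).mul_left (m : ℝ)
      refine h2.congr fun p => ?_
      rw [← Finset.sum_div, mul_div_assoc]) hx2
    (c := fun j n => (D j).indicator (fun _ => (1 : ℝ)) (S (t j n) x))
    (fun j n => indicator_nonneg (fun _ _ => zero_le_one) _)
    (fun j n => indicator_le_self' (fun _ _ => zero_le_one) _)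
  filter_upwards [h5] with y hy
  refine hy.congr fun N => ?_
  congr 1
  funext n
  have hsplit : ∀ j, Θ (t j n) (x, y) = (S (t j n) x, (Θ (t j n) (x, y)).2) := fun j =>
    Prod.ext (hP.fst' _ _) rfl
  have e5 : pr (fun j n => (Θ (t j n) : X × Y → X × Y))
      (fun j => (D j ×ˢ E (A j)).indicator fun _ => (1 : ℂ)) n (x, y) =
      ((∏ j, (D j).indicator (fun _ => (1 : ℝ)) (S (t j n) x) *
        (E (A j)).indicator (fun _ => (1 : ℝ)) (Θ (t j n) (x, y)).2 : ℝ) : ℂ) := by
    unfold Pool.Agent.TH739.PA.pr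
    rw [Complex.ofReal_prod]
    refine Finset.prod_congr rfl fun j _ => ?_
    show (D j ×ˢ E (A j)).indicator (fun _ => (1 : ℂ)) (Θ (t j n) (x, y)) = _
    have c0 : Θ (t j n) (x, y) ∈ D j ×ˢ E (A j) ↔ S (t j n) x ∈ D j ∧
        (Θ (t j n) (x, y)).2 ∈ E (A j) := by
      rw [mem_prod, hP.fst']
    by_cases c1 : S (t j n) x ∈ D j <;> by_cases c2 : (Θ (t j n) (x, y)).2 ∈ E (A j)
    · rw [indicator_of_mem (c0.2 ⟨c1, c2⟩), indicator_of_mem c1, indicator_of_mem c2]
      simp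
    · rw [indicator_of_notMem fun h => c2 (c0.1 h).2, indicator_of_notMem c2]
      simp
    · rw [indicator_of_notMem fun h => c1 (c0.1 h).1, indicator_of_notMem c1]
      simp
    · rw [indicator_of_notMem fun h => c1 (c0.1 h).1, indicator_of_notMem c1]
      simp
  have e7 : pr (fun j n => (Θ (t j n) : X × Y → X × Y))
      (fun j => bar ν ((D j ×ˢ E (A j)).indicator fun _ => (1 : ℂ))) n (x, y) =
      ((∏ j, (D j).indicator (fun _ => (1 : ℝ)) (S (t j n) x) * pe κ (A j) : ℝ) : ℂ) := by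
    unfold Pool.Agent.TH739.PA.pr
    rw [Complex.ofReal_prod]
    refine Finset.prod_congr rfl fun j _ => ?_
    show bar ν ((D j ×ˢ E (A j)).indicator fun _ => (1 : ℂ)) (Θ (t j n) (x, y)) = _
    rw [hsplit]
    unfold Pool.Agent.TH739.PA.bar
    have e9 : (fun y' => (D j ×ˢ E (A j)).indicator (fun _ => (1 : ℂ)) (S (t j n) x, y')) =
        fun y' => (((D j).indicator (fun _ => (1 : ℝ)) (S (t j n) x) : ℝ) : ℂ) *
          (E (A j)).indicator (fun _ => (1 : ℂ)) y' := by
      funext y'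
      by_cases c1 : S (t j n) x ∈ D j <;> by_cases c2 : y' ∈ E (A j) <;>
        simp [c1, c2, Set.indicator]
    simp only [e9]
    rw [integral_const_mul, integral_indicator_const _ (hE.meas _ (hA j) (hAf j)),
      real_E hE (hA j) (hAf j)]
    push_cast
    simp
  rw [e5, e7, ← Complex.ofReal_sub]

/-- The averages over the boxes `[1, M_1] × ⋯ × [1, M_k]` of single bounded functions along the maps
`t n` converge almost everywhere. -/
def SingleBoxConv {Z : Type} [MeasurableSpace Z] (k : ℕ) (P : Measure Z)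
    (t : (Fin k → ℕ) → Z → Z) : Prop :=
  ∀ H : Z → ℝ, Measurable H → (∃ C : ℝ, ∀ z, |H z| ≤ C) →
    ∀ᵐ z ∂P, ∃ L : ℝ, Tendsto (fun M : Fin k → ℕ => (∏ l, (M l : ℝ))⁻¹ *
      ∑ n ∈ Fintype.piFinset (fun l => Finset.Icc 1 (M l)), H (t n z)) atTop (𝓝 L)

/-- shift of the boxes, for real functions -/
theorem bx_shift (N : Fin k → ℕ) (a : (Fin k → ℕ) → ℝ) :
    bx k N (fun n => a fun l => n l + 1) =
      (∏ l, (N l : ℝ))⁻¹ * ∑ m ∈ Fintype.piFinset (fun l => Finset.Icc 1 (N l)), a m := by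
  have h1 := bxc_shift N fun n => (a n : ℂ)
  apply Complex.ofReal_injective
  unfold Pool.Agent.W761.Box.bxc at h1
  unfold Pool.Agent.W761.Box.bx
  push_cast at h1 ⊢
  exact h1

theorem shift_le (p : (Fin k → ℕ) × (Fin k → ℕ)) :
    wt (fun l => p.1 l + 1, fun l => p.2 l + 1) ≤ 4 ^ k * wt p := by
  have h1 : (4 : ℝ) ^ k = ∏ _l : Fin k, 4 := by simp
  rw [h1, wt, wt, ← Finset.prod_mul_distrib]
  refine Finset.prod_le_prod (fun l _ => by positivity) fun l _ => ?_
  have h2 : (0 : ℝ) ≤ max (p.1 l : ℝ) (p.2 l) := le_max_of_le_left (Nat.cast_nonneg _)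
  have h3 : max (((p.1 l + 1 : ℕ) : ℝ)) ((p.2 l + 1 : ℕ) : ℝ) = max (p.1 l : ℝ) (p.2 l) + 1 := by
    push_cast
    exact max_add_add_right _ _ _
  show (1 + max (((p.1 l + 1 : ℕ) : ℝ)) ((p.2 l + 1 : ℕ) : ℝ)) ^ 2 ≤ _
  rw [h3]
  nlinarith

/-- **Poisson extensions: the base is characteristic for unrestricted box averages.** -/
theorem poisson_char (hk : 0 < k) (hP : IsPoissonExt μ S κ R ν Θ) (t : Fin m → (Fin k → ℕ) → G)
    {ℛ : Set (Set W)} (hℛ : ∀ A ∈ ℛ, MeasurableSet A ∧ κ A ≠ ∞)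
    (hd : ∀ A, MeasurableSet A → κ A ≠ ∞ → ∀ ε : ℝ, 0 < ε → ∃ B ∈ ℛ, (κ (A ∆ B)).toReal ≤ ε)
    (hself : ∀ j, ∀ A ∈ ℛ, Summable fun p : (Fin k → ℕ) × (Fin k → ℕ) =>
      (μ.prod κ).real ((R (t j p.1) : X × W → X × W) ⁻¹' (univ ×ˢ A) ∩
        (R (t j p.2) : X × W → X × W) ⁻¹' (univ ×ˢ A)) /
          ∏ l, (1 + max (p.1 l : ℝ) (p.2 l)) ^ 2)
    (hcross : ∀ i j, i ≠ j → ∀ A ∈ ℛ, ∀ B ∈ ℛ, Summable fun n : Fin k → ℕ =>
      (μ.prod κ).real ((R (t i n) : X × W → X × W) ⁻¹' (univ ×ˢ A) ∩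
        (R (t j n) : X × W → X × W) ⁻¹' (univ ×ˢ B)) / ∏ l, (1 + (n l : ℝ)))
    (hgood : ∀ j, (∃ (g : G) (b : Fin k → G), ∀ n, t j n = word g b n) ∨
      SingleBoxConv k (μ.prod ν) fun n => (Θ (t j n) : X × Y → X × Y))
    {f : Fin m → X × Y → ℂ} (hf : ∀ j, MemLp (f j) ∞ (μ.prod ν)) :
    ∀ᵐ z ∂(μ.prod ν), Tendsto (fun M : Fin k → ℕ => (∏ l, (M l : ℂ))⁻¹ *
      ∑ n ∈ Fintype.piFinset (fun l => Finset.Icc 1 (M l)),
        (∏ j, f j (Θ (t j n) z) - ∏ j, ∫ y, f j (S (t j n) z.1, y) ∂ν)) atTop (𝓝 0) := by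
  obtain ⟨E, hE, hv⟩ := hP.void
  have hT := act_mp hP.base hP.meas' hP.fst' hP.mp'
  choose F hF hfF using fun j => BM_of_memLp (hf j)
  let t' : Fin m → (Fin k → ℕ) → G := fun j n => t j fun l => n l + 1
  have hg' : ∀ j, Good atTop (box k) (μ.prod ν) fun n => (Θ (t' j n) : X × Y → X × Y) := by
    intro j H hH hC
    rcases hgood j with ⟨g, b, hb⟩ | h
    · have h1 := good_word (μ := μ.prod ν) (Φ := Θ) hT g b H hH hC
      simp only [avr_box]
      have e : (fun n => (Θ (t' j n) : X × Y → X × Y)) =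
          fun n : Fin k → ℕ => (Θ (word g b fun l => n l + 1) : X × Y → X × Y) := by
        funext n
        show (Θ (t j fun l => n l + 1) : X × Y → X × Y) = _
        rw [hb]
      have e2 : ∀ n z, Θ (t' j n) z = Θ (word g b fun l => n l + 1) z := fun n z =>
        congrFun (congrFun e n) z
      simp only [e2]
      exact h1
    · filter_upwards [h H hH hC] with z hz
      obtain ⟨L, hL⟩ := hz
      refine ⟨L, hL.congr fun N => ?_⟩
      rw [avr_box]
      exact (bx_shift N fun n => H (Θ (t j n) z)).symm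
  have h0 : PZ atTop (box k) μ ν (fun j n => (Θ (t' j n) : X × Y → X × Y)) F := by
    refine ext_all (P := PZ atTop (box k) μ ν (fun j n => (Θ (t' j n) : X × Y → X × Y)))
      (𝒬 := Qf (X := X) E ℛ) ?_ ?_ ?_ hF
    · rintro e ⟨D, A, hD, hA, rfl⟩
      exact ind_BM (hD.prod (hE.meas A (hℛ A hA).1 (hℛ A hA).2)) 1
    · intro f k' hf hQ h hh
      exact PZ_step hE (fun j n => hT _) hg' hℛ hd f k' hf hQ h hh
    · intro f hf
      choose D A hD hA e using hf
      have : f = fun j => (D j ×ˢ E (A j)).indicator fun _ => (1 : ℂ) := funext e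
      rw [this]
      refine PZ_base_rel hk hP hE hv (fun j => (hℛ _ (hA j)).1) (fun j => (hℛ _ (hA j)).2)
        (fun j => ?_) (fun i j hij => ?_) hD
      · have hinj : Function.Injective (fun p : (Fin k → ℕ) × (Fin k → ℕ) =>
            ((fun l => p.1 l + 1, fun l => p.2 l + 1) : (Fin k → ℕ) × (Fin k → ℕ))) := by
          rintro ⟨a, b⟩ ⟨a', b'⟩ h
          have h1 := congrArg Prod.fst h
          have h2 := congrArg Prod.snd h
          refine Prod.ext (funext fun l => ?_) (funext fun l => ?_)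
          · exact Nat.succ_injective (congrFun h1 l)
          · exact Nat.succ_injective (congrFun h2 l)
        have h1 := ((hself j _ (hA j)).comp_injective hinj).mul_left ((4 : ℝ) ^ k)
        refine Summable.of_nonneg_of_le (fun p => div_nonneg measureReal_nonneg (wt_pos p).le)
          (fun p => ?_) h1
        have h2 := shift_le p
        have h3 := wt_pos p
        have h4 := wt_pos (fun l => p.1 l + 1, fun l => p.2 l + 1)
        show _ ≤ 4 ^ k * ((μ.prod κ).real _ / wt (fun l => p.1 l + 1, fun l => p.2 l + 1))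
        rw [mul_div_assoc', div_le_div_iff₀ h3 h4]
        have h5 : (0 : ℝ) ≤ (μ.prod κ).real ((R (t j fun l => p.1 l + 1) : X × W → X × W) ⁻¹'
          (univ ×ˢ A j) ∩ (R (t j fun l => p.2 l + 1) : X × W → X × W) ⁻¹' (univ ×ˢ A j)) :=
          measureReal_nonneg
        calc _ ≤ (μ.prod κ).real ((R (t j fun l => p.1 l + 1) : X × W → X × W) ⁻¹'
          (univ ×ˢ A j) ∩ (R (t j fun l => p.2 l + 1) : X × W → X × W) ⁻¹' (univ ×ˢ A j)) *
              (4 ^ k * wt p) := mul_le_mul_of_nonneg_left h2 h5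
          _ = _ := by ring
      · have hinj : Function.Injective (fun (n : Fin k → ℕ) (l : Fin k) => n l + 1) := by
          intro a b h
          funext l
          exact Nat.succ_injective (congrFun h l)
        have h1 := ((hcross i j hij _ (hA i) _ (hA j)).comp_injective hinj).mul_left ((2 : ℝ) ^ k)
        refine Summable.of_nonneg_of_le (fun p => div_nonneg measureReal_nonneg
          (Finset.prod_nonneg fun l _ => by positivity)) (fun n => ?_) h1
        have h2 : ∏ l, (1 + ((n l + 1 : ℕ) : ℝ)) ≤ 2 ^ k * ∏ l, (1 + (n l : ℝ)) := by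
          have h1 : (2 : ℝ) ^ k = ∏ _l : Fin k, 2 := by simp
          rw [h1, ← Finset.prod_mul_distrib]
          refine Finset.prod_le_prod (fun l _ => by positivity) fun l _ => ?_
          push_cast
          have : (0 : ℝ) ≤ n l := Nat.cast_nonneg _
          linarith
        have h3 : 0 < ∏ l, (1 + (n l : ℝ)) := Finset.prod_pos fun l _ => by positivity
        have h4 : 0 < ∏ l, (1 + ((n l + 1 : ℕ) : ℝ)) := Finset.prod_pos fun l _ => by positivity
        show _ ≤ 2 ^ k * ((μ.prod κ).real _ / ∏ l, (1 + ((n l + 1 : ℕ) : ℝ)))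
        rw [mul_div_assoc', div_le_div_iff₀ h3 h4]
        have h5 : (0 : ℝ) ≤ (μ.prod κ).real ((R (t i fun l => n l + 1) : X × W → X × W) ⁻¹'
          (univ ×ˢ A i) ∩ (R (t j fun l => n l + 1) : X × W → X × W) ⁻¹' (univ ×ˢ A j)) :=
          measureReal_nonneg
        calc _ ≤ (μ.prod κ).real ((R (t i fun l => n l + 1) : X × W → X × W) ⁻¹'
          (univ ×ˢ A i) ∩ (R (t j fun l => n l + 1) : X × W → X × W) ⁻¹' (univ ×ˢ A j)) *
              (2 ^ k * ∏ l, (1 + (n l : ℝ))) := mul_le_mul_of_nonneg_left h2 h5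
          _ = _ := by ring
  have h1 : ∀ᵐ z ∂(μ.prod ν), ∀ (n : Fin k → ℕ) (j : Fin m), f j (Θ (t j n) z) =
      F j (Θ (t j n) z) := by
    rw [ae_all_iff]
    intro n
    rw [ae_all_iff]
    intro j
    exact (hT _).quasiMeasurePreserving.ae (hfF j)
  have h2 : ∀ j, ∀ᵐ x ∂μ, ∫ y, f j (x, y) ∂ν = ∫ y, F j (x, y) ∂ν := by
    intro j
    filter_upwards [Measure.ae_ae_of_ae_prod (hfF j)] with x hx
    exact integral_congr_ae hx
  have h3 : ∀ᵐ x ∂μ, ∀ (n : Fin k → ℕ) (j : Fin m), ∫ y, f j (S (t j n) x, y) ∂ν =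
      ∫ y, F j (S (t j n) x, y) ∂ν := by
    rw [ae_all_iff]
    intro n
    rw [ae_all_iff]
    intro j
    exact (hP.base _).quasiMeasurePreserving.ae (h2 j)
  have h3' : ∀ᵐ z ∂(μ.prod ν), ∀ (n : Fin k → ℕ) (j : Fin m),
      ∫ y, f j (S (t j n) z.1, y) ∂ν = ∫ y, F j (S (t j n) z.1, y) ∂ν :=
    Measure.quasiMeasurePreserving_fst.ae h3
  filter_upwards [h0, h1, h3'] with z hz hz1 hz2
  refine hz.congr fun N => ?_
  rw [av_box]
  have h4 := bxc_shift N fun n => (∏ j, f j (Θ (t j n) z) - ∏ j, ∫ y, f j (S (t j n) z.1, y) ∂ν)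
  rw [← h4]
  congr 1
  funext n
  congr 1
  · exact Finset.prod_congr rfl fun j _ => (hz1 _ j).symm
  · refine Finset.prod_congr rfl fun j _ => ?_
    rw [hz2 _ j]
    show ∫ y, F j ((Θ (t j fun l => n l + 1) z).1, y) ∂ν = _
    rw [hP.fst']

end main

end Pool.Agent.K3h50.MB
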