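import Pool.Agent.K3h50.MB.GauF
import Pool.Agent.K3h50.MB.Poi

/-!
# Gaussian extensions of group actions: unrestricted boxes
-/

set_option autoImplicit false
set_option linter.unusedSectionVars false

open Filter Topology MeasureTheory Set
open scoped ENNReal symmDiff

noncomputable section

namespace Pool.Agent.K3h50.MB

open Pool.Agent.W761.Box (bx bxc)
open Pool.Agent.TH739.PB (box mem_box box_card avr_box av_box)
open Pool.Agent.TH739.PA (av avr LP Good PZ pr bar bar_BM bar_add bar_mul bar_update pr_update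
  ext_all ext_one ind_BM avr_add av_ofReal avr_abs avr_mono av_add av_mul avr_mul PZ_closed int_snd)
open Pool.Agent.TH739.PS (ae_summable)
open Pool.Agent.W761.Gauss (BM BM_of_memLp GaussSpace q bil ex ex_add ex_sum norm_ex cont_ex meas_ex
  bil_comm bil_self meas_exh conj_ex EP dense_EP sig q_comp)
open Pool.Agent.K3h50.KB (word good_word bxc_shift)

section fixed

variable {Y : Type} [MeasurableSpace Y] {ν : Measure Y} [IsProbabilityMeasure ν]
  {H : Submodule ℝ (Y → ℝ)} {m : ℕ} {I ι : Type} {𝔣 : Filter I} {Bx : I → Finset ι}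

theorem abs_exp_diff {a b : ℝ} (ha : 0 ≤ a) (hb : 0 ≤ b) :
    |Real.exp (-a) - Real.exp (-b)| ≤ |a - b| := by
  rcases le_total a b with h | h
  · have := Pool.Agent.TH739.PA.exp_diff ha h
    rw [abs_sub_comm a b, abs_of_nonneg (sub_nonneg.mpr h)]
    exact this
  · have := Pool.Agent.TH739.PA.exp_diff hb h
    rw [abs_sub_comm, abs_of_nonneg (sub_nonneg.mpr h)]
    exact this

theorem q_sum_diff (hH : GaussSpace ν H) {v : Fin m → Y → ℝ} (hv : ∀ l, v l ∈ H) :
    |q ν (∑ l, v l) - ∑ l, q ν (v l)| ≤ ∑ i, ∑ j, if i ≠ j then |bil ν (v i) (v j)| else 0 := by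
  rw [hH.q_sum Finset.univ fun l _ => hv l]
  have e : ∑ i, ∑ j, bil ν (v i) (v j) - ∑ l, q ν (v l) =
      ∑ i, ∑ j, if i ≠ j then bil ν (v i) (v j) else 0 := by
    rw [← Finset.sum_sub_distrib]
    refine Finset.sum_congr rfl fun i _ => ?_
    rw [← bil_self, ← Finset.sum_erase_add _ _ (Finset.mem_univ i), add_sub_cancel_right,
      ← Finset.sum_erase_add (Finset.univ : Finset (Fin m)) (fun j => if i ≠ j then
        bil ν (v i) (v j) else 0) (Finset.mem_univ i), if_neg (by simp), add_zero]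
    refine Finset.sum_congr rfl fun j hj => ?_
    rw [if_pos (Finset.ne_of_mem_erase hj).symm]
  rw [e]
  refine (Finset.abs_sum_le_sum_abs _ _).trans (Finset.sum_le_sum fun i _ => ?_)
  refine (Finset.abs_sum_le_sum_abs _ _).trans (Finset.sum_le_sum fun j _ => ?_)
  split_ifs
  · exact le_rfl
  · rw [abs_zero]

/-- **The base case along one fibre.** -/
theorem gauss_fixed (hH : GaussSpace ν H) {v : Fin m → ι → Y → ℝ} (hv : ∀ l n, v l n ∈ H)
    {ρ : Fin m → ℝ} (hρ : ∀ l n, q ν (v l n) = ρ l)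
    (hR : LP 𝔣 Bx fun p => Real.exp (m * ∑ l, ρ l) * (m * ∑ l, |bil ν (v l p.1) (v l p.2)|))
    (hDg : ∀ i j, i ≠ j → Tendsto (fun N : I => avr (Bx N) fun n =>
      |bil ν (v i n) (v j n)|) 𝔣 (𝓝 0))
    {c : ι → ℝ} (hc : ∀ n, |c n| ≤ 1) :
    ∀ᵐ y ∂ν, Tendsto (fun N => av (Bx N) fun n =>
      (c n : ℂ) * (∏ l, ex (v l n y) - ∏ l, (Real.exp (-(ρ l) / 2) : ℝ))) 𝔣 (𝓝 0) := by
  set w : ι → Y → ℝ := fun n => ∑ l, v l n with hw
  have hwH : ∀ n, w n ∈ H := fun n => H.sum_mem fun l _ => hv l n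
  set e : ι → ℝ := fun n => Real.exp (-(q ν (w n)) / 2) with he
  have he0 : ∀ n, 0 ≤ e n := fun n => (Real.exp_pos _).le
  have he1 : ∀ n, e n ≤ 1 := fun n => by
    refine Real.exp_le_one_iff.mpr ?_
    have := q_nonneg (ν := ν) (w n)
    linarith
  let U : ι → Y → ℂ := fun n y => (c n : ℂ) * (ex (w n y) - (e n : ℝ))
  have hUm : ∀ n, Measurable (U n) := fun n =>
    ((meas_exh hH (hwH n)).sub measurable_const).const_mul _
  have hU2 : ∀ n y, ‖U n y‖ ≤ 2 := by
    intro n y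
    show ‖(c n : ℂ) * (ex (w n y) - (e n : ℝ))‖ ≤ 2
    rw [norm_mul, Complex.norm_real, Real.norm_eq_abs]
    have h1 : ‖ex (w n y) - (e n : ℂ)‖ ≤ 2 := by
      refine (norm_sub_le _ _).trans ?_
      rw [norm_ex, Complex.norm_real, Real.norm_of_nonneg (he0 n)]
      linarith [he1 n]
    calc |c n| * ‖ex (w n y) - (e n : ℂ)‖ ≤ 1 * 2 :=
        mul_le_mul (hc n) h1 (norm_nonneg _) zero_le_one
      _ = 2 := one_mul _
  have hmom := fun N => mom_le hH (Bx N) hv hρ (c := c) hc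
  have hnn : ∀ p : ι × ι, 0 ≤ Real.exp (m * ∑ l, ρ l) * (m * ∑ l, |bil ν (v l p.1) (v l p.2)|) :=
    fun p => mul_nonneg (Real.exp_pos _).le (mul_nonneg (Nat.cast_nonneg _)
      (Finset.sum_nonneg fun l _ => abs_nonneg _))
  have hSi : ∀ N, Integrable (fun y => ‖∑ n ∈ Bx N, U n y‖ ^ 2) ν := by
    intro N
    refine Integrable.of_bound ((Finset.measurable_fun_sum _ fun n _ => hUm n).norm.pow_const
      2).aestronglyMeasurable ((∑ _n ∈ Bx N, (2 : ℝ)) ^ 2) (Eventually.of_forall fun y => ?_)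
    rw [Real.norm_of_nonneg (by positivity)]
    refine pow_le_pow_left₀ (norm_nonneg _) ?_ 2
    exact (norm_sum_le _ _).trans (Finset.sum_le_sum fun n _ => hU2 n y)
  -- one part
  have part : ∀ φ : ℂ →L[ℝ] ℝ, (∀ z, |φ z| ≤ ‖z‖) → ∀ᵐ y ∂ν, Tendsto (fun N =>
      avr (Bx N) fun n => 2⁻¹ * φ (U n y)) 𝔣 (𝓝 0) := by
    intro φ hφ
    refine hR Y inferInstance ν inferInstance (fun n y => 2⁻¹ * φ (U n y))
      (fun n => (φ.continuous.measurable.comp (hUm n)).const_mul _) (fun n y => ?_) fun N => ?_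
    · rw [abs_mul, abs_of_pos (by norm_num : (0 : ℝ) < 2⁻¹)]
      have := (hφ (U n y)).trans (hU2 n y)
      linarith
    · refine le_trans ?_ (hmom N)
      refine integral_mono_of_nonneg (Eventually.of_forall fun y => sq_nonneg _) (hSi N)
        (Eventually.of_forall fun y => ?_)
      show (∑ n ∈ Bx N, 2⁻¹ * φ (U n y)) ^ 2 ≤ ‖∑ n ∈ Bx N, U n y‖ ^ 2
      rw [← Finset.mul_sum, ← map_sum]
      have h1 := hφ (∑ n ∈ Bx N, U n y)
      have h2 : |2⁻¹ * φ (∑ n ∈ Bx N, U n y)| ≤ ‖∑ n ∈ Bx N, U n y‖ := by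
        rw [abs_mul, abs_of_pos (by norm_num : (0 : ℝ) < 2⁻¹)]
        have := norm_nonneg (∑ n ∈ Bx N, U n y)
        linarith
      rw [← sq_abs (2⁻¹ * _)]
      exact pow_le_pow_left₀ (abs_nonneg _) h2 2
  have hre := part Complex.reCLM fun z => Complex.abs_re_le_norm z
  have him := part Complex.imCLM fun z => Complex.abs_im_le_norm z
  -- the expectations
  have h2 : Tendsto (fun N : I => avr (Bx N) fun n =>
      c n * (e n - ∏ l, Real.exp (-(ρ l) / 2))) 𝔣 (𝓝 0) := by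
    have h3 : Tendsto (fun N : I => ∑ i, ∑ j, avr (Bx N) fun n =>
        if i ≠ j then |bil ν (v i n) (v j n)| else 0) 𝔣 (𝓝 0) := by
      have h4 : (0 : ℝ) = ∑ _i : Fin m, ∑ _j : Fin m, 0 := by simp
      rw [h4]
      refine tendsto_finsetSum _ fun i _ => tendsto_finsetSum _ fun j _ => ?_
      by_cases hij : i ≠ j
      · simp only [if_pos hij]
        exact hDg i j hij
      · simp only [if_neg hij]
        refine tendsto_const_nhds.congr fun N => ?_
        simp [avr]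
    refine squeeze_zero_norm (fun N => ?_) h3
    rw [Real.norm_eq_abs]
    refine (avr_abs _ _).trans ?_
    have e3 : ∑ i, ∑ j, avr (Bx N) (fun n =>
        if i ≠ j then |bil ν (v i n) (v j n)| else 0) = avr (Bx N) fun n =>
        ∑ i, ∑ j, if i ≠ j then |bil ν (v i n) (v j n)| else 0 := by
      unfold Pool.Agent.TH739.PA.avr
      rw [Finset.sum_comm' (t' := Finset.univ) (s' := fun _ => Bx N)
        (by simp), Finset.mul_sum]
      refine Finset.sum_congr rfl fun i _ => ?_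
      rw [Finset.sum_comm, Finset.mul_sum]
    rw [e3]
    refine avr_mono fun n _ => ?_
    rw [abs_mul]
    refine (mul_le_of_le_one_left (abs_nonneg _) (hc n)).trans ?_
    have e4 : ∏ l, Real.exp (-(ρ l) / 2) = Real.exp (-((∑ l, q ν (v l n)) / 2)) := by
      rw [← Real.exp_sum]
      congr 1
      rw [Finset.sum_div, ← Finset.sum_neg_distrib]
      refine Finset.sum_congr rfl fun l _ => ?_
      rw [hρ]
      ring
    have e5 : e n = Real.exp (-(q ν (w n) / 2)) := by
      show Real.exp (-(q ν (w n)) / 2) = _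
      rw [neg_div]
    rw [e4, e5]
    refine (abs_exp_diff (by have := q_nonneg (ν := ν) (w n); linarith) ?_).trans ?_
    · have : 0 ≤ ∑ l, q ν (v l n) := Finset.sum_nonneg fun l _ => q_nonneg _
      linarith
    · have h5 := q_sum_diff hH (v := fun l => v l n) fun l => hv l n
      rw [← sub_div, abs_div, abs_of_pos (by norm_num : (0 : ℝ) < 2)]
      have h6 : 0 ≤ |q ν (w n) - ∑ l, q ν (v l n)| := abs_nonneg _
      have h7 : |q ν (w n) - ∑ l, q ν (v l n)| ≤
        ∑ i, ∑ j, if i ≠ j then |bil ν (v i n) (v j n)| else 0 := h5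
      linarith
  filter_upwards [hre, him] with y hy1 hy2
  have h3 : Tendsto (fun N => (2 : ℂ) * ((avr (Bx N) fun n => 2⁻¹ * Complex.reCLM (U n y) : ℝ) : ℂ) +
      (2 * Complex.I) * ((avr (Bx N) fun n => 2⁻¹ * Complex.imCLM (U n y) : ℝ) : ℂ) +
      ((avr (Bx N) fun n => c n * (e n - ∏ l, Real.exp (-(ρ l) / 2)) : ℝ) : ℂ)) 𝔣 (𝓝 0) := by
    have t1 := ((Complex.continuous_ofReal.tendsto _).comp hy1).const_mul (2 : ℂ)
    have t2 := ((Complex.continuous_ofReal.tendsto _).comp hy2).const_mul (2 * Complex.I)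
    have t3 := (Complex.continuous_ofReal.tendsto _).comp h2
    have t4 := (t1.add t2).add t3
    simpa using t4
  refine h3.congr fun N => ?_
  rw [← av_ofReal, ← av_ofReal, ← av_ofReal, ← av_mul, ← av_mul, ← av_add, ← av_add]
  congr 1
  funext n
  have e6 : ∏ l, ex (v l n y) = ex (w n y) := by
    rw [← ex_sum]
    congr 1
    rw [hw]
    simp only [Finset.sum_apply]
  have e7 : (((U n y).re : ℂ)) + ((U n y).im : ℂ) * Complex.I = U n y := Complex.re_add_im _
  have e8 : U n y = (c n : ℂ) * (ex (w n y) - (e n : ℝ)) := rfl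
  rw [e6]
  simp only [Complex.reCLM_apply, Complex.imCLM_apply]
  push_cast
  have e9 : (2 : ℂ) * (2⁻¹ * ((U n y).re : ℂ)) + 2 * Complex.I * (2⁻¹ * ((U n y).im : ℂ)) = U n y := by
    conv_rhs => rw [← e7]
    ring
  rw [e9, e8]
  push_cast
  ring

end fixed

section ext

variable {X Y : Type} [MeasurableSpace X] [MeasurableSpace Y] {μ : Measure X} {ν : Measure Y}
  [IsProbabilityMeasure μ] [IsProbabilityMeasure ν] {H : Submodule ℝ (Y → ℝ)} {m : ℕ}
  {I ι : Type*} {𝔣 : Filter I} {Bx : I → Finset ι}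

/-- the basic functions -/
def tn (D : Set X) (g : Y → ℂ) (z : X × Y) : ℂ := D.indicator (fun _ => (1 : ℂ)) z.1 * g z.2

theorem tn_norm (D : Set X) (g : Y → ℂ) (z : X × Y) : ‖tn D g z‖ ≤ ‖g z.2‖ := by
  unfold tn
  rw [norm_mul]
  by_cases h : z.1 ∈ D <;> simp [h]

theorem tn_BM {D : Set X} (hD : MeasurableSet D) {g : Y → ℂ} (hg : Measurable g) {C : ℝ}
    (hC : ∀ y, ‖g y‖ ≤ C) : BM (tn D g) :=
  ⟨((measurable_const.indicator hD).comp measurable_fst).mul (hg.comp measurable_snd), C,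
    fun z => (tn_norm D g z).trans (hC _)⟩

theorem tn_dist {D : Set X} {f g : Y → ℂ} (hfg : Integrable (fun y => ‖f y - g y‖) ν) :
    ∫ z, ‖tn D f z - tn D g z‖ ∂(μ.prod ν) ≤ ∫ y, ‖f y - g y‖ ∂ν := by
  rw [← int_snd (μ := μ) (ν := ν) fun y => ‖f y - g y‖]
  refine integral_mono_of_nonneg (Eventually.of_forall fun z => norm_nonneg _)
    (hfg.comp_snd μ) (Eventually.of_forall fun z => ?_)
  show ‖tn D f z - tn D g z‖ ≤ ‖f z.2 - g z.2‖
  have e : tn D f z - tn D g z = tn D (fun y => f y - g y) z := by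
    unfold tn
    ring
  rw [e]
  exact tn_norm _ _ _

/-- the basic class -/
def Qg (ℛ : Set (Y → ℝ)) : Set (X × Y → ℂ) :=
  {e | ∃ (D : Set X) (h : Y → ℝ), MeasurableSet D ∧ h ∈ ℛ ∧ e = tn D fun y => ex (h y)}

theorem PZ_add {g : Fin m → ι → X × Y → X × Y} {F : Fin m → X × Y → ℂ} {k : Fin m}
    {f f' : X × Y → ℂ} (hf : BM f) (hf' : BM f')
    (h1 : PZ 𝔣 Bx μ ν g (Function.update F k f)) (h2 : PZ 𝔣 Bx μ ν g (Function.update F k f')) :
    PZ 𝔣 Bx μ ν g (Function.update F k (f + f')) := by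
  filter_upwards [h1, h2] with z hz hz'
  have h3 := hz.add hz'
  rw [add_zero] at h3
  refine h3.congr fun N => ?_
  rw [← av_add]
  congr 1
  funext n
  rw [bar_update, bar_update, bar_update, pr_update, pr_update, pr_update, pr_update,
    pr_update, pr_update, Pi.add_apply, bar_add hf hf']
  ring

theorem PZ_smul {g : Fin m → ι → X × Y → X × Y} {F : Fin m → X × Y → ℂ} {k : Fin m}
    (c : ℂ) {f : X × Y → ℂ} (h1 : PZ 𝔣 Bx μ ν g (Function.update F k f)) :
    PZ 𝔣 Bx μ ν g (Function.update F k fun x => c * f x) := by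
  filter_upwards [h1] with z hz
  have h3 := hz.const_mul c
  rw [mul_zero] at h3
  refine h3.congr fun N => ?_
  rw [← av_mul]
  congr 1
  funext n
  rw [bar_update, bar_update, pr_update, pr_update, pr_update, pr_update, bar_mul]
  ring

/-- Extension in one slot. -/
theorem PZ_gstep [𝔣.NeBot] [𝔣.IsCountablyGenerated] (hH : GaussSpace ν H)
    (hgen : ∀ A, MeasurableSet A → ∃ B, MeasurableSet[sig H] B ∧ A =ᵐ[ν] B)
    {g : Fin m → ι → X × Y → X × Y}
    (hg : ∀ j n, MeasurePreserving (g j n) (μ.prod ν) (μ.prod ν))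
    (hgood : ∀ j, Good 𝔣 Bx (μ.prod ν) (g j))
    {ℛ : Set (Y → ℝ)} (hℛ : ∀ h ∈ ℛ, h ∈ H)
    (hd : ∀ h ∈ H, ∀ ε : ℝ, 0 < ε → ∃ h' ∈ ℛ, ∫ y, |h y - h' y| ∂ν ≤ ε)
    (F : Fin m → X × Y → ℂ) (k : Fin m) (hF : ∀ j, BM (F j))
    (hQ : ∀ e ∈ Qg (X := X) ℛ, PZ 𝔣 Bx μ ν g (Function.update F k e)) (h : X × Y → ℂ) (hh : BM h) :
    PZ 𝔣 Bx μ ν g (Function.update F k h) := by
  have hcl : ∀ h, BM h → (∀ ε : ℝ, 0 < ε → ∃ g' : X × Y → ℂ, BM g' ∧
      ∫ z, ‖h z - g' z‖ ∂(μ.prod ν) ≤ ε ∧ PZ 𝔣 Bx μ ν g (Function.update F k g')) →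
      PZ 𝔣 Bx μ ν g (Function.update F k h) := fun h hh H => PZ_closed hg hgood hF k hh H
  have hexm : ∀ h ∈ H, Measurable fun y => ex (h y) := fun h hh => meas_exh hH hh
  -- exponentials of elements of `H`
  have s1 : ∀ D : Set X, MeasurableSet D → ∀ h ∈ H,
      PZ 𝔣 Bx μ ν g (Function.update F k (tn D fun y => ex (h y))) := by
    intro D hD h hh
    refine hcl _ (tn_BM hD (hexm h hh) fun y => (norm_ex _).le) fun ε hε => ?_
    obtain ⟨h', hh', hdist⟩ := hd h hh ε hε
    have hi : Integrable (fun y => |h y - h' y|) ν := by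
      have h1 := (hH.memLp hh).sub (hH.memLp (hℛ h' hh'))
      exact (h1.integrable one_le_two).abs
    refine ⟨tn D fun y => ex (h' y), tn_BM hD (hexm h' (hℛ h' hh')) fun y => (norm_ex _).le, ?_,
      hQ _ ⟨D, h', hD, hh', rfl⟩⟩
    have h2 : ∀ y, ‖ex (h y) - ex (h' y)‖ ≤ |h y - h' y| := by
      intro y
      have e : ex (h y) - ex (h' y) = ex (h' y) * (ex (h y - h' y) - 1) := by
        rw [mul_sub, ← ex_add, mul_one]
        congr 2
        ring
      rw [e, norm_mul, norm_ex, one_mul]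
      have := Real.norm_exp_I_mul_ofReal_sub_one_le (x := h y - h' y)
      rw [Real.norm_eq_abs] at this
      refine le_trans (le_of_eq ?_) this
      rw [ex, mul_comm]
    have hi2 : Integrable (fun y => ‖ex (h y) - ex (h' y)‖) ν :=
      hi.mono' (((hexm h hh).sub (hexm h' (hℛ h' hh'))).norm.aestronglyMeasurable)
        (Eventually.of_forall fun y => by
          rw [norm_norm]
          exact h2 y)
    refine (tn_dist hi2).trans ((integral_mono hi2 hi h2).trans hdist)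
  -- exponential polynomials
  have s2 : ∀ D : Set X, MeasurableSet D → ∀ f ∈ EP H, (Measurable f ∧ ∃ C : ℝ, ∀ y, ‖f y‖ ≤ C) ∧
      PZ 𝔣 Bx μ ν g (Function.update F k (tn D f)) := by
    intro D hD f hf
    refine Submodule.span_induction (p := fun f _ => (Measurable f ∧ ∃ C : ℝ, ∀ y, ‖f y‖ ≤ C) ∧
      PZ 𝔣 Bx μ ν g (Function.update F k (tn D f))) ?_ ?_ ?_ ?_ hf
    · rintro _ ⟨h, hh, rfl⟩
      exact ⟨⟨hexm h hh, 1, fun y => (norm_ex _).le⟩, s1 D hD h hh⟩
    · refine ⟨⟨measurable_const, 0, fun y => by simp⟩, ?_⟩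
      have h1 := PZ_smul (𝔣 := 𝔣) (Bx := Bx) (F := F) (0 : ℂ) (s1 D hD 0 H.zero_mem)
      have e : (tn D (0 : Y → ℂ)) = fun z : X × Y => (0 : ℂ) * tn D (fun y => ex ((0 : Y → ℝ) y)) z := by
        funext z
        simp [tn]
      rw [e]
      exact h1
    · rintro f₁ f₂ _ _ ⟨⟨hm1, C1, hC1⟩, h1⟩ ⟨⟨hm2, C2, hC2⟩, h2⟩
      refine ⟨⟨hm1.add hm2, C1 + C2, fun y => (norm_add_le _ _).trans (add_le_add (hC1 y) (hC2 y))⟩,
        ?_⟩
      have h3 := PZ_add (tn_BM hD hm1 hC1) (tn_BM hD hm2 hC2) h1 h2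
      have e : tn D (f₁ + f₂) = tn D f₁ + tn D f₂ := by
        funext z
        simp only [tn, Pi.add_apply]
        ring
      rw [e]
      exact h3
    · rintro c f₁ _ ⟨⟨hm1, C1, hC1⟩, h1⟩
      refine ⟨⟨hm1.const_smul c, ‖c‖ * C1, fun y => ?_⟩, ?_⟩
      · rw [Pi.smul_apply, norm_smul]
        exact mul_le_mul_of_nonneg_left (hC1 y) (norm_nonneg _)
      · have h3 := PZ_smul (𝔣 := 𝔣) (Bx := Bx) (F := F) c h1
        have e : tn D (c • f₁) = fun z => c * tn D f₁ z := by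
          funext z
          simp only [tn, Pi.smul_apply, smul_eq_mul]
          ring
        rw [e]
        exact h3
  -- rectangles
  refine ext_one (μ := μ.prod ν) (P := fun h => PZ 𝔣 Bx μ ν g (Function.update F k h))
    (fun f f' hf hf' h1 h2 => PZ_add hf hf' h1 h2) (fun c f _ h1 => PZ_smul c h1) hcl
    (𝒬 := image2 (· ×ˢ ·) {s : Set X | MeasurableSet s} {t : Set Y | MeasurableSet t})
    ?_ isPiSystem_prod ?_ ?_ ?_ hh
  · rintro D ⟨A, hA, B, hB, rfl⟩
    exact hA.prod hB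
  · exact ⟨univ, MeasurableSet.univ, univ, MeasurableSet.univ, univ_prod_univ⟩
  · intro C hC
    rw [generateFrom_prod]
    exact ⟨C, hC, ae_eq_refl _⟩
  · rintro D ⟨A, hA, B, hB, rfl⟩
    have hA' : MeasurableSet A := hA
    have hB' : MeasurableSet B := hB
    have e : ((A ×ˢ B).indicator fun _ => (1 : ℂ) : X × Y → ℂ) =
        tn A (B.indicator fun _ => (1 : ℂ)) := by
      funext z
      unfold tn
      by_cases h1 : z.1 ∈ A <;> by_cases h2 : z.2 ∈ B <;> simp [h1, h2, Set.indicator]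
    have hBb : BM (B.indicator fun _ => (1 : ℂ)) := ind_BM hB' 1
    obtain ⟨hBm, C, hC⟩ := hBb
    show PZ 𝔣 Bx μ ν g (Function.update F k ((A ×ˢ B).indicator fun _ => (1 : ℂ)))
    rw [e]
    refine hcl _ (tn_BM hA' hBm hC) fun ε hε => ?_
    have hL : MemLp (B.indicator fun _ => (1 : ℂ)) 2 ν :=
      MemLp.of_bound hBm.aestronglyMeasurable C (Eventually.of_forall hC)
    obtain ⟨f, hf, hdist⟩ := dense_EP hH hgen hL hε
    obtain ⟨⟨hfm, C', hC'⟩, hP⟩ := s2 A hA' f hf
    refine ⟨tn A f, tn_BM hA' hfm hC', (tn_dist ?_).trans hdist, hP⟩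
    refine Integrable.of_bound (hBm.sub hfm).norm.aestronglyMeasurable (C + C')
      (Eventually.of_forall fun y => ?_)
    rw [norm_norm]
    exact (norm_sub_le _ _).trans (add_le_add (hC y) (hC' y))

end ext

/-- The action `Θ` of `G` on `X × Y` is a Gaussian extension of the action `S` on the probability
space `(X, μ)`: `H` is a linear space of centered Gaussian random variables on `(Y, ν)` which
generates the σ-algebra modulo null sets, and for every `g` and almost every `x` the map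
`y ↦ (Θ g (x, y))_2` preserves `ν` and maps `H` into itself, modulo null sets. -/
structure IsGaussianExt {G X Y : Type} [Group G] [MeasurableSpace X] [MeasurableSpace Y]
    (μ : Measure X) (S : G →* Equiv.Perm X) (ν : Measure Y) (H : Submodule ℝ (Y → ℝ))
    (Θ : G →* Equiv.Perm (X × Y)) : Prop where
  base : ∀ g, MeasurePreserving (S g) μ μ
  meas : ∀ g, Measurable (Θ g)
  fst : ∀ g z, (Θ g z).1 = S g z.1
  mp : ∀ g, ∀ᵐ x ∂μ, MeasurePreserving (fun y => (Θ g (x, y)).2) ν ν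
  hmeas : ∀ h ∈ H, Measurable h
  law : ∀ h ∈ H, ∃ v, ν.map h = ProbabilityTheory.gaussianReal 0 v
  gen : ∀ A, MeasurableSet A → ∃ B,
    MeasurableSet[⨆ h : H, MeasurableSpace.comap (h : Y → ℝ) inferInstance] B ∧ A =ᵐ[ν] B
  lin : ∀ g, ∀ᵐ x ∂μ, ∀ h ∈ H, ∃ h' ∈ H, (fun y => h (Θ g (x, y)).2) =ᵐ[ν] h'

/-- The mean over the base of the modulus of the relative correlation of `h ∘ Θ g` and
`h' ∘ Θ g'`. -/
def relCorr {G X Y : Type} [Group G] [MeasurableSpace X] [MeasurableSpace Y] (μ : Measure X)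
    (ν : Measure Y) (Θ : G →* Equiv.Perm (X × Y)) (g g' : G) (h h' : Y → ℝ) : ℝ :=
  ∫ x, |∫ y, h (Θ g (x, y)).2 * h' (Θ g' (x, y)).2 ∂ν| ∂μ

section main

variable {G X Y : Type} [Group G] [MeasurableSpace X] [MeasurableSpace Y]
  {μ : Measure X} [IsProbabilityMeasure μ] {ν : Measure Y}
  [IsProbabilityMeasure ν] {S : G →* Equiv.Perm X} {H : Submodule ℝ (Y → ℝ)}
  {Θ : G →* Equiv.Perm (X × Y)} {m k : ℕ}

theorem corr_meas (hm : ∀ g, Measurable (Θ g)) {h h' : Y → ℝ} (hh : Measurable h)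
    (hh' : Measurable h') (g g' : G) :
    Measurable fun x => |∫ y, h (Θ g (x, y)).2 * h' (Θ g' (x, y)).2 ∂ν| := by
  have h1 : Measurable fun z : X × Y => h (Θ g z).2 * h' (Θ g' z).2 :=
    (hh.comp (measurable_snd.comp (hm g))).mul (hh'.comp (measurable_snd.comp (hm g')))
  have h2 := (StronglyMeasurable.integral_prod_right' (ν := ν) h1.stronglyMeasurable).measurable
  exact h2.abs

theorem corr_le (hH : GaussSpace ν H) (hP : IsGaussianExt μ S ν H Θ) {h h' : Y → ℝ}
    (hh : h ∈ H) (hh' : h' ∈ H) (g g' : G) :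
    ∀ᵐ x ∂μ, |∫ y, h (Θ g (x, y)).2 * h' (Θ g' (x, y)).2 ∂ν| ≤ (q ν h + q ν h') / 2 := by
  filter_upwards [hP.mp g, hP.mp g', hP.lin g, hP.lin g'] with x h1 h2 h3 h4
  obtain ⟨v, hv, hv'⟩ := h3 h hh
  obtain ⟨w, hw, hw'⟩ := h4 h' hh'
  have e1 : q ν v = q ν h := by
    have e2 := q_comp h1 (hH.meas h hh)
    rw [← e2]
    refine integral_congr_ae ?_
    filter_upwards [hv'] with y hy
    rw [← hy]
    rfl
  have e3 : q ν w = q ν h' := by
    have e2 := q_comp h2 (hH.meas h' hh')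
    rw [← e2]
    refine integral_congr_ae ?_
    filter_upwards [hw'] with y hy
    rw [← hy]
    rfl
  have e4 : ∫ y, h (Θ g (x, y)).2 * h' (Θ g' (x, y)).2 ∂ν = bil ν v w := by
    refine integral_congr_ae ?_
    filter_upwards [hv', hw'] with y hy hy'
    rw [← hy, ← hy']
  rw [e4, ← e1, ← e3]
  exact abs_bil_le hH hv hw

/-- The basic functions. -/
theorem PZ_base_gauss (hk : 0 < k) (hP : IsGaussianExt μ S ν H Θ)
    {t : Fin m → (Fin k → ℕ) → G} {h : Fin m → Y → ℝ} (hh : ∀ j, h j ∈ H)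
    (hself : ∀ j, Summable fun p : (Fin k → ℕ) × (Fin k → ℕ) =>
      relCorr μ ν Θ (t j p.1) (t j p.2) (h j) (h j) / wt p)
    (hcross : ∀ i j, i ≠ j → Summable fun n : Fin k → ℕ =>
      relCorr μ ν Θ (t i n) (t j n) (h i) (h j) / ∏ l, (1 + (n l : ℝ)))
    {D : Fin m → Set X} (hD : ∀ j, MeasurableSet (D j)) :
    PZ atTop (box k) μ ν (fun j n => (Θ (t j n) : X × Y → X × Y))
      (fun j => tn (D j) fun y => ex (h j y)) := by
  have hH : GaussSpace ν H := ⟨hP.hmeas, hP.law⟩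
  have hT := act_mp hP.base hP.meas hP.fst hP.mp
  have hF : ∀ j, BM (tn (D j) fun y => ex (h j y)) := fun j =>
    tn_BM (hD j) (meas_exh hH (hh j)) fun y => (norm_ex _).le
  have hmeas : ∀ F : Fin m → X × Y → ℂ, (∀ j, BM (F j)) → ∀ n : Fin k → ℕ,
      Measurable (pr (fun j n => (Θ (t j n) : X × Y → X × Y)) F n) := fun F hF n =>
    Finset.measurable_fun_prod _ fun j _ => (hF j).1.comp (hT _).measurable
  refine (Measure.ae_prod_mem_iff_ae_ae_mem (μ := μ) (ν := ν)
    (s := {z : X × Y | Tendsto (fun N : Fin k → ℕ => av (box k N) fun n =>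
      pr (fun j n => (Θ (t j n) : X × Y → X × Y))
        (fun j => tn (D j) fun y => ex (h j y)) n z -
      pr (fun j n => (Θ (t j n) : X × Y → X × Y)) (fun l => bar ν (tn (D l) fun y => ex (h l y)))
        n z) atTop (𝓝 0)}) ?_).mpr ?_
  · refine measurableSet_tendsto_fun (fun N => ?_) measurable_const
    unfold Pool.Agent.TH739.PA.av
    exact (Finset.measurable_fun_sum _ fun n _ => (hmeas _ hF n).sub
      (hmeas _ (fun j => bar_BM (hF j)) n)).const_mul _
  have h1 : ∀ᵐ x ∂μ, ∀ j, Summable fun p : (Fin k → ℕ) × (Fin k → ℕ) =>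
      |∫ y, h j (Θ (t j p.1) (x, y)).2 * h j (Θ (t j p.2) (x, y)).2 ∂ν| / wt p := by
    refine ae_all_iff.mpr fun j => ae_summable (C := (q ν (h j) + q ν (h j)) / 2)
      (fun p => (corr_meas hP.meas (hH.meas _ (hh j)) (hH.meas _ (hh j)) _ _).div_const _)
      (fun p x => div_nonneg (abs_nonneg _) (wt_pos p).le) (fun p => ?_) ?_
    · filter_upwards [corr_le hH hP (hh j) (hh j) (t j p.1) (t j p.2)] with x hx
      refine (div_le_self (abs_nonneg _) ?_).trans hx
      refine one_le_prod_real _ fun l _ => ?_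
      have h3 : (0 : ℝ) ≤ max (p.1 l : ℝ) (p.2 l) := le_max_of_le_left (Nat.cast_nonneg _)
      exact one_le_pow₀ (by linarith)
    · simp only [integral_div]
      exact hself j
  have h2 : ∀ᵐ x ∂μ, ∀ i j, i ≠ j → Tendsto (fun N : Fin k → ℕ => avr (box k N) fun n =>
      |∫ y, h i (Θ (t i n) (x, y)).2 * h j (Θ (t j n) (x, y)).2 ∂ν|) atTop (𝓝 0) := by
    refine ae_all_iff.mpr fun i => ae_all_iff.mpr fun j => ?_
    by_cases hij : i = j
    · exact Eventually.of_forall fun x h => absurd hij h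
    · have h3 : ∀ᵐ x ∂μ, Summable fun n : Fin k → ℕ =>
          |∫ y, h i (Θ (t i n) (x, y)).2 * h j (Θ (t j n) (x, y)).2 ∂ν| /
            ∏ l, (1 + (n l : ℝ)) := by
        refine ae_summable (C := (q ν (h i) + q ν (h j)) / 2)
          (fun p => (corr_meas hP.meas (hH.meas _ (hh i)) (hH.meas _ (hh j)) _ _).div_const _)
          (fun p x => div_nonneg (abs_nonneg _) (Finset.prod_nonneg fun l _ => by positivity))
          (fun p => ?_) ?_
        · filter_upwards [corr_le hH hP (hh i) (hh j) (t i p) (t j p)] with x hx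
          refine (div_le_self (abs_nonneg _) ?_).trans hx
          refine one_le_prod_real _ fun l _ => ?_
          have h3 : (0 : ℝ) ≤ p l := Nat.cast_nonneg _
          linarith
        · simp only [integral_div]
          exact hcross i j hij
      filter_upwards [h3] with x hx _
      exact kron_box hk (fun n => abs_nonneg _) hx
  have h3 : ∀ᵐ x ∂μ, ∀ j (n : Fin k → ℕ), MeasurePreserving
      (fun y => (Θ (t j n) (x, y)).2) ν ν :=
    ae_all_iff.mpr fun j => ae_all_iff.mpr fun n => hP.mp _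
  have h4 : ∀ᵐ x ∂μ, ∀ j (n : Fin k → ℕ), ∀ h ∈ H, ∃ h' ∈ H,
      (fun y => h (Θ (t j n) (x, y)).2) =ᵐ[ν] h' :=
    ae_all_iff.mpr fun j => ae_all_iff.mpr fun n => hP.lin _
  filter_upwards [h1, h2, h3, h4] with x hx1 hx2 hx3 hx4
  choose v hvH hve using fun (j : Fin m) (n : Fin k → ℕ) => hx4 j n (h j) (hh j)
  have hρ : ∀ j n, q ν (v j n) = q ν (h j) := by
    intro j n
    have e2 := q_comp (hx3 j n) (hH.meas _ (hh j))
    rw [← e2]
    refine integral_congr_ae ?_
    filter_upwards [hve j n] with y hy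
    rw [← hy]
    rfl
  have hbil : ∀ i j n n', bil ν (v i n) (v j n') =
      ∫ y, h i (Θ (t i n) (x, y)).2 * h j (Θ (t j n') (x, y)).2 ∂ν := by
    intro i j n n'
    refine integral_congr_ae ?_
    filter_upwards [hve i n, hve j n'] with y hy hy'
    rw [← hy, ← hy']
  let cc : Fin m → (Fin k → ℕ) → ℝ := fun j n => (D j).indicator (fun _ => (1 : ℝ)) (S (t j n) x)
  have ec : ∀ j n, (D j).indicator (fun _ => (1 : ℂ)) (S (t j n) x) = ((cc j n : ℝ) : ℂ) := by
    intro j n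
    show _ = (((D j).indicator (fun _ => (1 : ℝ)) (S (t j n) x) : ℝ) : ℂ)
    by_cases c1 : S (t j n) x ∈ D j <;> simp [c1]
  have hc : ∀ n, |∏ j, cc j n| ≤ 1 := by
    intro n
    rw [abs_of_nonneg (Finset.prod_nonneg fun j _ => indicator_nonneg
      (fun _ _ => zero_le_one) _)]
    exact Finset.prod_le_one (fun j _ => indicator_nonneg (fun _ _ => zero_le_one) _)
      fun j _ => indicator_le_self' (fun _ _ => zero_le_one) _
  have h5 := gauss_fixed (m := m) (𝔣 := atTop) (Bx := box k) hH hvH (ρ := fun j => q ν (h j)) hρ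
    (by
      refine LP_box hk (fun p => mul_nonneg (Real.exp_pos _).le (mul_nonneg (Nat.cast_nonneg _)
        (Finset.sum_nonneg fun j _ => abs_nonneg _))) ?_
      have h2 := ((summable_sum (s := Finset.univ) fun j _ => hx1 j).mul_left (m : ℝ)).mul_left
        (Real.exp (m * ∑ l, q ν (h l)))
      refine h2.congr fun p => ?_
      simp only [hbil]
      rw [← Finset.sum_div, mul_div_assoc, mul_div_assoc])
    (fun i j hij => by
      simp only [hbil]
      exact hx2 i j hij) (c := fun n => ∏ j, cc j n) hc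
  have h6 : ∀ᵐ y ∂ν, ∀ j n, h j (Θ (t j n) (x, y)).2 = v j n y :=
    ae_all_iff.mpr fun j => ae_all_iff.mpr fun n => hve j n
  filter_upwards [h5, h6] with y hy hy6
  refine hy.congr fun N => ?_
  congr 1
  funext n
  have e5 : pr (fun j n => (Θ (t j n) : X × Y → X × Y))
      (fun j => tn (D j) fun y => ex (h j y)) n (x, y) =
      ((∏ j, cc j n : ℝ) : ℂ) * ∏ j, ex (v j n y) := by
    unfold Pool.Agent.TH739.PA.pr
    rw [Complex.ofReal_prod, ← Finset.prod_mul_distrib]
    refine Finset.prod_congr rfl fun j _ => ?_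
    show (D j).indicator (fun _ => (1 : ℂ)) (Θ (t j n) (x, y)).1 * ex (h j (Θ (t j n) (x, y)).2) = _
    rw [hy6, hP.fst, ec]
  have e7 : pr (fun j n => (Θ (t j n) : X × Y → X × Y))
      (fun j => bar ν (tn (D j) fun y => ex (h j y))) n (x, y) =
      ((∏ j, cc j n : ℝ) : ℂ) * ∏ j, ((Real.exp (-(q ν (h j)) / 2) : ℝ) : ℂ) := by
    unfold Pool.Agent.TH739.PA.pr
    rw [Complex.ofReal_prod, ← Finset.prod_mul_distrib]
    refine Finset.prod_congr rfl fun j _ => ?_
    show ∫ y', (D j).indicator (fun _ => (1 : ℂ)) (Θ (t j n) (x, y)).1 * ex (h j y') ∂ν = _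
    rw [integral_const_mul, int_ex_one hH (hh j), hP.fst, ec]
  rw [e5, e7, mul_sub]
  push_cast
  rfl

/-- **Gaussian extensions: the base is characteristic for unrestricted box averages.** -/
theorem gauss_char (hk : 0 < k) (hP : IsGaussianExt μ S ν H Θ) (t : Fin m → (Fin k → ℕ) → G)
    {ℛ : Set (Y → ℝ)} (hℛ : ∀ h ∈ ℛ, h ∈ H)
    (hd : ∀ h ∈ H, ∀ ε : ℝ, 0 < ε → ∃ h' ∈ ℛ, ∫ y, |h y - h' y| ∂ν ≤ ε)
    (hself : ∀ j, ∀ h ∈ ℛ, Summable fun p : (Fin k → ℕ) × (Fin k → ℕ) =>
      relCorr μ ν Θ (t j p.1) (t j p.2) h h / ∏ l, (1 + max (p.1 l : ℝ) (p.2 l)) ^ 2)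
    (hcross : ∀ i j, i ≠ j → ∀ h ∈ ℛ, ∀ h' ∈ ℛ, Summable fun n : Fin k → ℕ =>
      relCorr μ ν Θ (t i n) (t j n) h h' / ∏ l, (1 + (n l : ℝ)))
    (hgood : ∀ j, (∃ (g : G) (b : Fin k → G), ∀ n, t j n = word g b n) ∨
      SingleBoxConv k (μ.prod ν) fun n => (Θ (t j n) : X × Y → X × Y))
    {f : Fin m → X × Y → ℂ} (hf : ∀ j, MemLp (f j) ∞ (μ.prod ν)) :
    ∀ᵐ z ∂(μ.prod ν), Tendsto (fun M : Fin k → ℕ => (∏ l, (M l : ℂ))⁻¹ *
      ∑ n ∈ Fintype.piFinset (fun l => Finset.Icc 1 (M l)),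
        (∏ j, f j (Θ (t j n) z) - ∏ j, ∫ y, f j (S (t j n) z.1, y) ∂ν)) atTop (𝓝 0) := by
  have hH : GaussSpace ν H := ⟨hP.hmeas, hP.law⟩
  have hT := act_mp hP.base hP.meas hP.fst hP.mp
  choose F hF hfF using fun j => BM_of_memLp (hf j)
  let t' : Fin m → (Fin k → ℕ) → G := fun j n => t j fun l => n l + 1
  have hg' : ∀ j, Good atTop (box k) (μ.prod ν) fun n => (Θ (t' j n) : X × Y → X × Y) := by
    intro j H hH hC
    rcases hgood j with ⟨g, b, hb⟩ | h
    · have h1 := good_word (μ := μ.prod ν) (Φ := Θ) hT g b H hH hC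
      simp only [avr_box]
      have e : (fun n => (Θ (t' j n) : X × Y → X × Y)) =
          fun n : Fin k → ℕ => (Θ (word g b fun l => n l + 1) : X × Y → X × Y) := by
        funext n
        show (Θ (t j fun l => n l + 1) : X × Y → X × Y) = _
        rw [hb]
      have e2 : ∀ n z, Θ (t' j n) z = Θ (word g b fun l => n l + 1) z := fun n z =>
        congrFun (congrFun e n) z
      simp only [e2]
      exact h1
    · filter_upwards [h H hH hC] with z hz
      obtain ⟨L, hL⟩ := hz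
      refine ⟨L, hL.congr fun N => ?_⟩
      rw [avr_box]
      exact (bx_shift N fun n => H (Θ (t j n) z)).symm
  have h0 : PZ atTop (box k) μ ν (fun j n => (Θ (t' j n) : X × Y → X × Y)) F := by
    refine ext_all (P := PZ atTop (box k) μ ν (fun j n => (Θ (t' j n) : X × Y → X × Y)))
      (𝒬 := Qg (X := X) ℛ) ?_ ?_ ?_ hF
    · rintro e ⟨D, h, hD, hh, rfl⟩
      exact tn_BM hD (meas_exh hH (hℛ h hh)) fun y => (norm_ex _).le
    · intro f k' hf hQ h hh
      exact PZ_gstep hH hP.gen (fun j n => hT _) hg' hℛ hd f k' hf hQ h hh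
    · intro f hf
      choose D h hD hh e using hf
      have : f = fun j => tn (D j) fun y => ex (h j y) := funext e
      rw [this]
      refine PZ_base_gauss hk hP (fun j => hℛ _ (hh j)) (fun j => ?_) (fun i j hij => ?_) hD
      · have hinj : Function.Injective (fun p : (Fin k → ℕ) × (Fin k → ℕ) =>
            ((fun l => p.1 l + 1, fun l => p.2 l + 1) : (Fin k → ℕ) × (Fin k → ℕ))) := by
          rintro ⟨a, b⟩ ⟨a', b'⟩ h
          have h1 := congrArg Prod.fst h
          have h2 := congrArg Prod.snd h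
          refine Prod.ext (funext fun l => ?_) (funext fun l => ?_)
          · exact Nat.succ_injective (congrFun h1 l)
          · exact Nat.succ_injective (congrFun h2 l)
        have h1 := ((hself j _ (hh j)).comp_injective hinj).mul_left ((4 : ℝ) ^ k)
        refine Summable.of_nonneg_of_le (fun p => div_nonneg
          (integral_nonneg fun x => abs_nonneg _) (wt_pos p).le) (fun p => ?_) h1
        have h2 := shift_le p
        have h3 := wt_pos p
        have h4 := wt_pos (fun l => p.1 l + 1, fun l => p.2 l + 1)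
        show _ ≤ 4 ^ k * (relCorr μ ν Θ _ _ _ _ / wt (fun l => p.1 l + 1, fun l => p.2 l + 1))
        rw [mul_div_assoc', div_le_div_iff₀ h3 h4]
        have h5 : (0 : ℝ) ≤ relCorr μ ν Θ (t j fun l => p.1 l + 1) (t j fun l => p.2 l + 1)
          (h j) (h j) := integral_nonneg fun x => abs_nonneg _
        refine (mul_le_mul_of_nonneg_left h2 h5).trans (le_of_eq ?_)
        ring
      · have hinj : Function.Injective (fun (n : Fin k → ℕ) (l : Fin k) => n l + 1) := by
          intro a b h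
          funext l
          exact Nat.succ_injective (congrFun h l)
        have h1 := ((hcross i j hij _ (hh i) _ (hh j)).comp_injective hinj).mul_left ((2 : ℝ) ^ k)
        refine Summable.of_nonneg_of_le (fun p => div_nonneg (integral_nonneg fun x => abs_nonneg _)
          (Finset.prod_nonneg fun l _ => by positivity)) (fun n => ?_) h1
        have h2 : ∏ l, (1 + ((n l + 1 : ℕ) : ℝ)) ≤ 2 ^ k * ∏ l, (1 + (n l : ℝ)) := by
          have h1 : (2 : ℝ) ^ k = ∏ _l : Fin k, 2 := by simp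
          rw [h1, ← Finset.prod_mul_distrib]
          refine Finset.prod_le_prod (fun l _ => by positivity) fun l _ => ?_
          push_cast
          have : (0 : ℝ) ≤ n l := Nat.cast_nonneg _
          linarith
        have h3 : 0 < ∏ l, (1 + (n l : ℝ)) := Finset.prod_pos fun l _ => by positivity
        have h4 : 0 < ∏ l, (1 + ((n l + 1 : ℕ) : ℝ)) := Finset.prod_pos fun l _ => by positivity
        show _ ≤ 2 ^ k * (relCorr μ ν Θ _ _ _ _ / ∏ l, (1 + ((n l + 1 : ℕ) : ℝ)))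
        rw [mul_div_assoc', div_le_div_iff₀ h3 h4]
        have h5 : (0 : ℝ) ≤ relCorr μ ν Θ (t i fun l => n l + 1) (t j fun l => n l + 1)
          (h i) (h j) := integral_nonneg fun x => abs_nonneg _
        refine (mul_le_mul_of_nonneg_left h2 h5).trans (le_of_eq ?_)
        ring
  have h1 : ∀ᵐ z ∂(μ.prod ν), ∀ (n : Fin k → ℕ) (j : Fin m), f j (Θ (t j n) z) =
      F j (Θ (t j n) z) := by
    rw [ae_all_iff]
    intro n
    rw [ae_all_iff]
    intro j
    exact (hT _).quasiMeasurePreserving.ae (hfF j)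
  have h2 : ∀ j, ∀ᵐ x ∂μ, ∫ y, f j (x, y) ∂ν = ∫ y, F j (x, y) ∂ν := by
    intro j
    filter_upwards [Measure.ae_ae_of_ae_prod (hfF j)] with x hx
    exact integral_congr_ae hx
  have h3 : ∀ᵐ x ∂μ, ∀ (n : Fin k → ℕ) (j : Fin m), ∫ y, f j (S (t j n) x, y) ∂ν =
      ∫ y, F j (S (t j n) x, y) ∂ν := by
    rw [ae_all_iff]
    intro n
    rw [ae_all_iff]
    intro j
    exact (hP.base _).quasiMeasurePreserving.ae (h2 j)
  have h3' : ∀ᵐ z ∂(μ.prod ν), ∀ (n : Fin k → ℕ) (j : Fin m),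
      ∫ y, f j (S (t j n) z.1, y) ∂ν = ∫ y, F j (S (t j n) z.1, y) ∂ν :=
    Measure.quasiMeasurePreserving_fst.ae h3
  filter_upwards [h0, h1, h3'] with z hz hz1 hz2
  refine hz.congr fun N => ?_
  rw [av_box]
  have h4 := bxc_shift N fun n => (∏ j, f j (Θ (t j n) z) - ∏ j, ∫ y, f j (S (t j n) z.1, y) ∂ν)
  rw [← h4]
  congr 1
  funext n
  congr 1
  · exact Finset.prod_congr rfl fun j _ => (hz1 _ j).symm
  · refine Finset.prod_congr rfl fun j _ => ?_
    rw [hz2 _ j]
    show ∫ y, F j ((Θ (t j fun l => n l + 1) z).1, y) ∂ν = _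
    rw [hP.fst]

end main

end Pool.Agent.K3h50.MB
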