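import Pool.Agent.K3h50.MB.AE
import Pool.Agent.K3h50.KB.Box
import Pool.Agent.TH290.RM.Base

/-!
# Second moments of box averages of extensions with mixing fibres
-/

set_option autoImplicit false

open Filter Topology MeasureTheory

noncomputable section

namespace Pool.Agent.K3h50.MB

open Pool.Agent.W761.Box (bx bx_bound bx_const_le)
open Pool.Agent.TH739.PB (box mem_box box_card avr_box)
open Pool.Agent.TH290.RM (corr_le)

variable {k : ℕ}

/-- Averaging over one coordinate. -/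
theorem sum_update (M : Fin k → ℕ) (l : Fin k) (F : (Fin k → ℕ) → ℝ) :
    ∑ n ∈ box k M, ∑ a ∈ Finset.range (M l), F (Function.update n l a) =
      M l * ∑ n ∈ box k M, F n := by
  rw [← Finset.sum_product']
  have h1 : ∑ p ∈ box k M ×ˢ Finset.range (M l), F (Function.update p.1 l p.2) =
      ∑ p ∈ box k M ×ˢ Finset.range (M l), F p.1 := by
    refine Finset.sum_nbij' (fun p => (Function.update p.1 l p.2, p.1 l))
      (fun p => (Function.update p.1 l p.2, p.1 l)) ?_ ?_ ?_ ?_ ?_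
    · rintro ⟨n, a⟩ h
      rw [Finset.mem_product, mem_box, Finset.mem_range] at h
      rw [Finset.mem_product, mem_box, Finset.mem_range]
      refine ⟨fun i => ?_, h.1 l⟩
      by_cases hi : i = l
      · subst hi
        simpa using h.2
      · simpa [Function.update_of_ne hi] using h.1 i
    · rintro ⟨n, a⟩ h
      rw [Finset.mem_product, mem_box, Finset.mem_range] at h
      rw [Finset.mem_product, mem_box, Finset.mem_range]
      refine ⟨fun i => ?_, h.1 l⟩
      by_cases hi : i = l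
      · subst hi
        simpa using h.2
      · simpa [Function.update_of_ne hi] using h.1 i
    · rintro ⟨n, a⟩ _
      simp
    · rintro ⟨n, a⟩ _
      simp
    · rintro ⟨n, a⟩ _
      rfl
  rw [h1, Finset.sum_product, Finset.mul_sum]
  refine Finset.sum_congr rfl fun n _ => ?_
  show ∑ _a ∈ Finset.range (M l), F n = _
  rw [Finset.sum_const, Finset.card_range, nsmul_eq_mul]

/-- Bound of a box average by the averages along the lines in one direction. -/
theorem bx_line {M : Fin k → ℕ} (l : Fin k) (hM : ∀ i, 1 ≤ M i) {F : (Fin k → ℕ) → ℝ} {B : ℝ}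
    (h : ∀ n, ∑ a ∈ Finset.range (M l), F (Function.update n l a) ≤ M l * B) :
    bx k M F ≤ B := by
  have hMl : (0 : ℝ) < M l := by exact_mod_cast hM l
  have hP : (0 : ℝ) < ∏ i, (M i : ℝ) := Finset.prod_pos fun i _ => by exact_mod_cast hM i
  have h1 : M l * ∑ n ∈ box k M, F n ≤ M l * ((∏ i, (M i : ℝ)) * B) := by
    rw [← sum_update]
    refine (Finset.sum_le_sum fun n _ => h n).trans (le_of_eq ?_)
    rw [Finset.sum_const, box_card, nsmul_eq_mul]
    push_cast
    ring
  have h2 := le_of_mul_le_mul_left h1 hMl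
  show (∏ i, (M i : ℝ))⁻¹ * ∑ n ∈ box k M, F n ≤ B
  rw [inv_mul_le_iff₀ hP]
  exact h2

section moments

variable {X Y : Type} [MeasurableSpace X] [MeasurableSpace Y] {μ : Measure X} {ν : Measure Y}
  [IsProbabilityMeasure μ] [IsProbabilityMeasure ν]

/-- The second moments. -/
theorem moment {ι : Type*} {c : ι → X → ℝ} (hc : ∀ n, Measurable (c n)) (hc1 : ∀ n x, |c n x| ≤ 1)
    {G : ι → X × Y → ℝ} (hG : ∀ n, Measurable (G n)) (hG1 : ∀ n z, |G n z| ≤ 1) {q : ι → ι → ℝ}
    (hq : ∀ n n', ∫ x, |∫ y, G n (x, y) * G n' (x, y) ∂ν| ∂μ ≤ q n n') (s : Finset ι) :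
    ∫ z : X × Y, (∑ n ∈ s, c n z.1 * G n z) ^ 2 ∂(μ.prod ν) ≤ ∑ n ∈ s, ∑ n' ∈ s, q n n' := by
  have hξm : ∀ n, Measurable fun z : X × Y => c n z.1 * G n z := fun n =>
    ((hc n).comp measurable_fst).mul (hG n)
  have hξb : ∀ n (z : X × Y), |c n z.1 * G n z| ≤ 1 := fun n z => by
    rw [abs_mul]
    exact mul_le_one₀ (hc1 _ _) (abs_nonneg _) (hG1 _ _)
  have e1 : ∀ z : X × Y, (∑ n ∈ s, c n z.1 * G n z) ^ 2 =
      ∑ n ∈ s, ∑ n' ∈ s, (c n z.1 * G n z) * (c n' z.1 * G n' z) := by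
    intro z
    rw [sq, Finset.sum_mul_sum]
  have hint : ∀ n n', Integrable (fun z : X × Y => (c n z.1 * G n z) * (c n' z.1 * G n' z))
      (μ.prod ν) := by
    intro n n'
    refine Integrable.of_bound ((hξm _).mul (hξm _)).aestronglyMeasurable 1
      (Eventually.of_forall fun z => ?_)
    rw [Real.norm_eq_abs, abs_mul]
    exact mul_le_one₀ (hξb _ _) (abs_nonneg _) (hξb _ _)
  simp only [e1]
  rw [integral_finsetSum _ fun n _ => integrable_finsetSum _ fun n' _ => hint n n']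
  refine Finset.sum_le_sum fun n _ => ?_
  rw [integral_finsetSum _ fun n' _ => hint n n']
  refine Finset.sum_le_sum fun n' _ => ?_
  refine le_trans (le_of_eq ?_) ((corr_le (μ := μ) (ν := ν)
    (c := fun x => c n x * c n' x) ((hc _).mul (hc _)) (fun x => ?_)
    (G := fun z => G n z * G n' z) ((hG _).mul (hG _)) (fun z => ?_)).trans (hq n n'))
  · refine integral_congr_ae (Eventually.of_forall fun z => ?_)
    show _ * _ * (_ * _) = _ * _ * (_ * _)
    ring
  · rw [abs_mul]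
    exact mul_le_one₀ (hc1 _ _) (abs_nonneg _) (hc1 _ _)
  · rw [abs_mul]
    exact mul_le_one₀ (hG1 _ _) (abs_nonneg _) (hG1 _ _)

/-- The second moments of the box averages. -/
theorem bx_moment {c : (Fin k → ℕ) → X → ℝ} (hc : ∀ n, Measurable (c n))
    (hc1 : ∀ n x, |c n x| ≤ 1)
    {G : (Fin k → ℕ) → X × Y → ℝ} (hG : ∀ n, Measurable (G n)) (hG1 : ∀ n z, |G n z| ≤ 1)
    {q : (Fin k → ℕ) → (Fin k → ℕ) → ℝ}
    (hq : ∀ n n', ∫ x, |∫ y, G n (x, y) * G n' (x, y) ∂ν| ∂μ ≤ q n n') (M : Fin k → ℕ) :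
    ∫ z : X × Y, (bx k M fun n => c n z.1 * G n z) ^ 2 ∂(μ.prod ν) ≤
      bx k M fun n => bx k M fun n' => q n n' := by
  have h1 := moment hc hc1 hG hG1 hq (box k M)
  have e : ∀ z : X × Y, (bx k M fun n => c n z.1 * G n z) ^ 2 =
      ((∏ i, (M i : ℝ))⁻¹ ^ 2) * (∑ n ∈ box k M, c n z.1 * G n z) ^ 2 := by
    intro z
    show ((∏ i, (M i : ℝ))⁻¹ * ∑ n ∈ box k M, c n z.1 * G n z) ^ 2 = _
    rw [mul_pow]
  simp only [e]
  rw [integral_const_mul]
  have h2 : (bx k M fun n => bx k M fun n' => q n n') =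
      (∏ i, (M i : ℝ))⁻¹ ^ 2 * ∑ n ∈ box k M, ∑ n' ∈ box k M, q n n' := by
    show (∏ i, (M i : ℝ))⁻¹ * ∑ n ∈ box k M, ((∏ i, (M i : ℝ))⁻¹ * ∑ n' ∈ box k M, q n n') = _
    rw [← Finset.mul_sum, sq, mul_assoc]
  rw [h2]
  exact mul_le_mul_of_nonneg_left h1 (sq_nonneg _)

end moments

section corr

variable {V : Type} [NormedAddCommGroup V] [NormedSpace ℝ V] {J : Type} [Fintype J]
  [DecidableEq J]

/-- the choice of one of two points -/
def sel {α : Type*} (ε : Bool) (n n' : α) : α := if ε then n' else n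

/-- The average of the rates over all pairs of points of a box. -/
theorem corr_bound {r : ℝ → ℝ} (hr0 : ∀ x, 0 ≤ r x) (hr : Antitone r) {τ : J → (Fin k → ℕ) → V}
    {lam : J → V} {θ : J → Fin k → V} (hτ : ∀ j n, τ j n = lam j + ∑ l, (n l : ℝ) • θ j l)
    (hθ : ∀ j l, θ j l ≠ 0) (hθ' : ∀ i j, i ≠ j → ∀ l, θ i l ≠ θ j l) {M : Fin k → ℕ}
    (hM : ∀ i, 1 ≤ M i) (l : Fin k) :
    (bx k M fun n => bx k M fun n' => ∑ i : J × Bool, ∑ i' : J × Bool, if i = i' then 0 else
      r ‖τ i.1 (sel i.2 n n') - τ i'.1 (sel i'.2 n n')‖) ≤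
      (∑ i : J × Bool, ∑ i' : J × Bool, ((2 / ‖θ i.1 l‖ + 1) + (2 / ‖θ i'.1 l‖ + 1) +
        (2 / ‖θ i.1 l - θ i'.1 l‖ + 1))) *
        (r 0 * (Real.sqrt (M l))⁻¹ + r (Real.sqrt (M l))) := by
  set B : ℝ := r 0 * (Real.sqrt (M l))⁻¹ + r (Real.sqrt (M l)) with hB
  have hB0 : 0 ≤ B := add_nonneg (mul_nonneg (hr0 _) (by positivity)) (hr0 _)
  have hup : ∀ j n a, τ j (Function.update n l a) =
      (lam j + ∑ i ∈ Finset.univ.erase l, (n i : ℝ) • θ j i) + (a : ℝ) • θ j l := by
    intro j n a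
    rw [hτ, ← Finset.add_sum_erase _ _ (Finset.mem_univ l), Function.update_self]
    have h1 : ∑ i ∈ Finset.univ.erase l, ((Function.update n l a i : ℕ) : ℝ) • θ j i =
        ∑ i ∈ Finset.univ.erase l, (n i : ℝ) • θ j i := by
      refine Finset.sum_congr rfl fun i hi => ?_
      rw [Function.update_of_ne (Finset.ne_of_mem_erase hi)]
    rw [h1]
    abel
  -- one line of the first kind
  have hline : ∀ j (v : V) n, ∑ a ∈ Finset.range (M l), r ‖τ j (Function.update n l a) - v‖ ≤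
      M l * ((2 / ‖θ j l‖ + 1) * B) := by
    intro j v n
    have h1 := line_avg hr0 hr (hθ j l)
      ((lam j + ∑ i ∈ Finset.univ.erase l, (n i : ℝ) • θ j i) - v) (hM l)
    refine le_trans (le_of_eq (Finset.sum_congr rfl fun a _ => ?_)) h1
    rw [hup]
    congr 2
    abel
  have hline' : ∀ i j, i ≠ j → ∀ n, ∑ a ∈ Finset.range (M l),
      r ‖τ i (Function.update n l a) - τ j (Function.update n l a)‖ ≤
      M l * ((2 / ‖θ i l - θ j l‖ + 1) * B) := by
    intro i j hij n
    have h1 := line_avg hr0 hr (sub_ne_zero.2 (hθ' i j hij l))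
      ((lam i + ∑ h ∈ Finset.univ.erase l, (n h : ℝ) • θ i h) -
        (lam j + ∑ h ∈ Finset.univ.erase l, (n h : ℝ) • θ j h)) (hM l)
    refine le_trans (le_of_eq (Finset.sum_congr rfl fun a _ => ?_)) h1
    rw [hup, hup, smul_sub]
    congr 2
    abel
  have hpos : ∀ x : ℝ, 0 ≤ x → 0 ≤ 2 / x + 1 := fun x hx => by positivity
  have hkey : ∀ i i' : J × Bool, (bx k M fun n => bx k M fun n' => if i = i' then 0 else
      r ‖τ i.1 (sel i.2 n n') - τ i'.1 (sel i'.2 n n')‖) ≤
      ((2 / ‖θ i.1 l‖ + 1) + (2 / ‖θ i'.1 l‖ + 1) + (2 / ‖θ i.1 l - θ i'.1 l‖ + 1)) * B := by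
    rintro ⟨i, ε⟩ ⟨i', ε'⟩
    have p1 := hpos ‖θ i l‖ (norm_nonneg _)
    have p2 := hpos ‖θ i' l‖ (norm_nonneg _)
    have p3 := hpos ‖θ i l - θ i' l‖ (norm_nonneg _)
    have q1 := mul_nonneg p1 hB0
    have q2 := mul_nonneg p2 hB0
    have q3 := mul_nonneg p3 hB0
    by_cases h : (i, ε) = (i', ε')
    · simp only [h, if_true]
      have h1 : (bx k M fun _ => bx k M fun _ => (0 : ℝ)) = 0 := by
        unfold Pool.Agent.W761.Box.bx
        simp
      rw [h1]
      exact mul_nonneg (by linarith) hB0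
    simp only [h, if_false]
    cases ε <;> cases ε'
    · -- both `n`
      have hij : i ≠ i' := fun hc => h (by rw [hc])
      have h2 : (bx k M fun n => bx k M fun _ =>
          r ‖τ i n - τ i' n‖) ≤ (2 / ‖θ i l - θ i' l‖ + 1) * B := by
        refine bx_line l hM fun n => ?_
        refine le_trans (Finset.sum_le_sum fun a _ => ?_) (hline' i i' hij n)
        exact bx_const_le (hr0 _)
      exact h2.trans (by nlinarith)
    · -- `n` and `n'`
      have h2 : (bx k M fun n => bx k M fun n' =>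
          r ‖τ i n - τ i' n'‖) ≤ (2 / ‖θ i' l‖ + 1) * B := by
        refine le_trans (Pool.Agent.W761.Box.bx_mono fun n => ?_) (bx_const_le q2)
        refine bx_line l hM fun n' => ?_
        refine le_trans (le_of_eq (Finset.sum_congr rfl fun a _ => ?_)) (hline i' (τ i n) n')
        rw [norm_sub_rev]
      exact h2.trans (by nlinarith)
    · -- `n'` and `n`
      have h2 : (bx k M fun n => bx k M fun n' =>
          r ‖τ i n' - τ i' n‖) ≤ (2 / ‖θ i l‖ + 1) * B := by
        refine le_trans (Pool.Agent.W761.Box.bx_mono fun n => ?_) (bx_const_le q1)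
        exact bx_line l hM fun n' => hline i (τ i' n) n'
      exact h2.trans (by nlinarith)
    · -- both `n'`
      have hij : i ≠ i' := fun hc => h (by rw [hc])
      have h2 : (bx k M fun _ => bx k M fun n' =>
          r ‖τ i n' - τ i' n'‖) ≤ (2 / ‖θ i l - θ i' l‖ + 1) * B := by
        refine le_trans (Pool.Agent.W761.Box.bx_mono fun n => ?_) (bx_const_le q3)
        exact bx_line l hM fun n' => hline' i i' hij n'
      exact h2.trans (by nlinarith)
  have e1 : (bx k M fun n => bx k M fun n' => ∑ i : J × Bool, ∑ i' : J × Bool, if i = i' then 0 else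
      r ‖τ i.1 (sel i.2 n n') - τ i'.1 (sel i'.2 n n')‖) =
      ∑ i : J × Bool, ∑ i' : J × Bool, bx k M fun n => bx k M fun n' => if i = i' then 0 else
      r ‖τ i.1 (sel i.2 n n') - τ i'.1 (sel i'.2 n n')‖ := by
    simp only [Pool.Agent.W761.Box.bx_sum]
  rw [e1, Finset.sum_mul]
  refine Finset.sum_le_sum fun i _ => ?_
  rw [Finset.sum_mul]
  exact Finset.sum_le_sum fun i' _ => hkey i i'

end corr

end Pool.Agent.K3h50.MB
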