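import Mathlib

/-!
# Sums over the sides of boxes and over arithmetic progressions
-/

set_option autoImplicit false

open Filter Topology

noncomputable section

namespace Pool.Agent.K3h50.MB

/-- Summability of a function of the greatest coordinate. -/
theorem summable_max {k : ℕ} (hk : 0 < k) {φ : ℕ → ℝ} (h0 : ∀ n, 0 ≤ φ n)
    (hs : Summable fun n : ℕ => ((n : ℝ) + 1) ^ (k - 1) * φ n) {F : (Fin k → ℕ) → ℝ}
    (hF0 : ∀ s, 0 ≤ F s) (hF : ∀ s l, (∀ i, s i ≤ s l) → F s ≤ φ (s l)) : Summable F := by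
  classical
  have : Nonempty (Fin k) := ⟨⟨0, hk⟩⟩
  refine summable_of_sum_le (c := k * ∑' n : ℕ, ((n : ℝ) + 1) ^ (k - 1) * φ n) hF0 fun u => ?_
  obtain ⟨N, hN⟩ : ∃ N : ℕ, ∀ s ∈ u, ∀ l, s l < N := by
    refine ⟨(u.sup fun s => Finset.univ.sup fun l => s l) + 1, fun s hs l => ?_⟩
    have h1 : s l ≤ Finset.univ.sup fun l => s l := Finset.le_sup (f := fun l => s l) (Finset.mem_univ l)
    have h2 := Finset.le_sup (f := fun s : Fin k → ℕ => Finset.univ.sup fun l => s l) hs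
    have h3 : s l ≤ u.sup fun s => Finset.univ.sup fun l => s l := h1.trans h2
    omega
  set Q := Fintype.piFinset fun _ : Fin k => Finset.range N with hQ
  have h1 : ∑ s ∈ u, F s ≤ ∑ s ∈ Q, F s := by
    refine Finset.sum_le_sum_of_subset_of_nonneg (fun s hs => ?_) fun s _ _ => hF0 s
    rw [hQ, Fintype.mem_piFinset]
    exact fun l => Finset.mem_range.2 (hN s hs l)
  have h2 : ∀ s : Fin k → ℕ, F s ≤ ∑ l, if ∀ i, s i ≤ s l then φ (s l) else 0 := by
    intro s
    obtain ⟨l, hl⟩ := Finite.exists_max s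
    refine (hF s l hl).trans ?_
    have h3 := Finset.single_le_sum (f := fun l => if ∀ i, s i ≤ s l then φ (s l) else 0)
      (fun l _ => by
        split_ifs
        · exact h0 _
        · exact le_rfl) (Finset.mem_univ l)
    rwa [if_pos hl] at h3
  have h4 : ∀ l : Fin k, ∑ s ∈ Q, (if ∀ i, s i ≤ s l then φ (s l) else 0) ≤
      ∑' n : ℕ, ((n : ℝ) + 1) ^ (k - 1) * φ n := by
    intro l
    have h5 : ∑ s ∈ Q, (if ∀ i, s i ≤ s l then φ (s l) else 0) =
        ∑ n ∈ Finset.range N, ∑ s ∈ Q with s l = n, (if ∀ i, s i ≤ s l then φ (s l) else 0) := by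
      refine (Finset.sum_fiberwise_of_maps_to (fun s hs => ?_) _).symm
      rw [hQ, Fintype.mem_piFinset] at hs
      exact hs l
    rw [h5]
    refine le_trans (Finset.sum_le_sum (g := fun n : ℕ => ((n : ℝ) + 1) ^ (k - 1) * φ n)
      fun n _ => ?_) (hs.sum_le_tsum _ fun n _ => mul_nonneg (by positivity) (h0 n))
    rw [← Finset.sum_filter, Finset.filter_filter]
    have h6 : ∀ s ∈ Q.filter (fun s => s l = n ∧ ∀ i, s i ≤ s l), φ (s l) = φ n := by
      intro s hs
      rw [(Finset.mem_filter.1 hs).2.1]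
    rw [Finset.sum_congr rfl h6, Finset.sum_const, nsmul_eq_mul]
    refine mul_le_mul_of_nonneg_right ?_ (h0 n)
    have h7 : Q.filter (fun s => s l = n ∧ ∀ i, s i ≤ s l) ⊆
        Fintype.piFinset fun i : Fin k => if i = l then {n} else Finset.range (n + 1) := by
      intro s hs
      obtain ⟨_, h8, h9⟩ := Finset.mem_filter.1 hs
      rw [Fintype.mem_piFinset]
      intro i
      by_cases hi : i = l
      · rw [if_pos hi, hi, h8]
        exact Finset.mem_singleton_self _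
      · rw [if_neg hi, Finset.mem_range]
        have := h9 i
        omega
    have h10 := Finset.card_le_card h7
    rw [Fintype.card_piFinset] at h10
    have h11 : ∏ i : Fin k, (if i = l then ({n} : Finset ℕ) else Finset.range (n + 1)).card =
        (n + 1) ^ (k - 1) := by
      rw [← Finset.mul_prod_erase _ _ (Finset.mem_univ l), if_pos rfl, Finset.card_singleton,
        one_mul]
      have h12 : ∀ i ∈ (Finset.univ : Finset (Fin k)).erase l,
          (if i = l then ({n} : Finset ℕ) else Finset.range (n + 1)).card = n + 1 := by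
        intro i hi
        rw [if_neg (Finset.ne_of_mem_erase hi), Finset.card_range]
      rw [Finset.prod_congr rfl h12, Finset.prod_const, Finset.card_erase_of_mem (Finset.mem_univ l),
        Finset.card_univ, Fintype.card_fin]
    rw [h11] at h10
    calc (((Q.filter fun s => s l = n ∧ ∀ i, s i ≤ s l).card : ℕ) : ℝ) ≤
        (((n + 1) ^ (k - 1) : ℕ) : ℝ) := by exact_mod_cast h10
      _ = ((n : ℝ) + 1) ^ (k - 1) := by push_cast; rfl
  refine h1.trans ((Finset.sum_le_sum fun s _ => h2 s).trans ?_)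
  rw [Finset.sum_comm]
  refine (Finset.sum_le_sum fun l _ => h4 l).trans (le_of_eq ?_)
  rw [Finset.sum_const, Finset.card_univ, Fintype.card_fin, nsmul_eq_mul]

/-- Summability along a slower sequence. -/
theorem summable_div {a : ℕ} (ha : 0 < a) {g : ℕ → ℝ} (hg : Summable g) (h0 : ∀ n, 0 ≤ g n) :
    Summable fun n => g (n / a) := by
  have : NeZero a := ⟨ha.ne'⟩
  have h1 : Summable fun p : ℕ × Fin a => g p.1 := by
    have h2 : Summable fun _ : Fin a => (1 : ℝ) := (hasSum_fintype _).summable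
    have h3 := hg.mul_of_nonneg h2 (fun n => h0 n) fun _ => zero_le_one
    simpa using h3
  have h4 := (Nat.divModEquiv a).summable_iff.2 h1
  exact h4

/-- Rates along geometric sequences. -/
theorem rate_summable {k : ℕ} {r : ℝ → ℝ} (hr0 : ∀ x, 0 ≤ r x) (hr : Antitone r)
    (hs : Summable fun h : ℕ => ((h : ℝ) + 1) ^ (k - 1) * r (2 ^ h)) {c : ℝ} (hc : 1 < c) :
    Summable fun n : ℕ => ((n : ℝ) + 1) ^ (k - 1) *
      (r 0 * (Real.sqrt ⌊c ^ n⌋₊)⁻¹ + r (Real.sqrt ⌊c ^ n⌋₊)) := by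
  obtain ⟨a, ha⟩ := pow_unbounded_of_one_lt 4 hc
  have ha0 : 0 < a := by
    rcases Nat.eq_zero_or_pos a with h | h
    · rw [h, pow_zero] at ha
      linarith
    · exact h
  have hc0 : 0 < c := by linarith
  have h1 : Summable fun j : ℕ => ((j : ℝ) + 1) ^ (k - 1) * (r 0 * (2 ^ j)⁻¹ + r (2 ^ j)) := by
    have h2 : Summable fun j : ℕ => ((j : ℝ) + 1) ^ (k - 1) * ((2 : ℝ) ^ j)⁻¹ := by
      have h3 := summable_pow_mul_geometric_of_norm_lt_one (R := ℝ) (k - 1) (r := 1 / 2) (by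
        rw [Real.norm_eq_abs, abs_of_pos] <;> norm_num)
      have h4 := (summable_nat_add_iff 1).2 h3
      refine (h4.mul_left 2).congr fun j => ?_
      push_cast
      rw [pow_succ, one_div, inv_pow]
      ring
    refine ((h2.mul_left (r 0)).add hs).congr fun j => ?_
    ring
  have h5 := (summable_div ha0 h1 fun j => mul_nonneg (by positivity)
    (add_nonneg (mul_nonneg (hr0 _) (by positivity)) (hr0 _))).mul_left ((a : ℝ) ^ (k - 1))
  refine Summable.of_nonneg_of_le (fun n => mul_nonneg (by positivity)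
    (add_nonneg (mul_nonneg (hr0 _) (by positivity)) (hr0 _))) (fun n => ?_) h5
  have h6 : (2 : ℝ) ^ (n / a) ≤ Real.sqrt ⌊c ^ n⌋₊ := by
    refine Real.le_sqrt_of_sq_le ?_
    have h7 : 4 ^ (n / a) ≤ ⌊c ^ n⌋₊ := by
      refine Nat.le_floor ?_
      push_cast
      calc (4 : ℝ) ^ (n / a) ≤ (c ^ a) ^ (n / a) := pow_le_pow_left₀ (by norm_num) ha.le _
        _ = c ^ (a * (n / a)) := by rw [pow_mul]
        _ ≤ c ^ n := pow_le_pow_right₀ hc.le (Nat.mul_div_le n a)
    have h8 : ((2 : ℝ) ^ (n / a)) ^ 2 = 4 ^ (n / a) := by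
      rw [← pow_mul, mul_comm, pow_mul]
      norm_num
    rw [h8]
    exact_mod_cast h7
  have h9 : (n : ℝ) + 1 ≤ a * (((n / a : ℕ) : ℝ) + 1) := by
    have h10 : n + 1 ≤ a * (n / a + 1) := by
      have := Nat.lt_mul_div_succ n ha0
      exact this
    exact_mod_cast h10
  have h11 : ((n : ℝ) + 1) ^ (k - 1) ≤ (a : ℝ) ^ (k - 1) * (((n / a : ℕ) : ℝ) + 1) ^ (k - 1) := by
    rw [← mul_pow]
    exact pow_le_pow_left₀ (by positivity) h9 _
  have h12 : r (Real.sqrt ⌊c ^ n⌋₊) ≤ r (2 ^ (n / a)) := hr h6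
  have h13 : (Real.sqrt ⌊c ^ n⌋₊)⁻¹ ≤ ((2 : ℝ) ^ (n / a))⁻¹ :=
    inv_anti₀ (by positivity) h6
  rw [← mul_assoc]
  refine mul_le_mul h11 (add_le_add (mul_le_mul_of_nonneg_left h13 (hr0 _)) h12)
    (add_nonneg (mul_nonneg (hr0 _) (by positivity)) (hr0 _)) (by positivity)

section line

variable {V : Type*} [NormedAddCommGroup V] [NormedSpace ℝ V]

/-- The number of terms of an arithmetic progression in a ball. -/
theorem count_line {θ : V} (hθ : θ ≠ 0) (c : V) (N : ℕ) {R : ℝ} (hR : 0 ≤ R) :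
    (((Finset.range N).filter fun a : ℕ => ‖c + (a : ℝ) • θ‖ ≤ R).card : ℝ) ≤
      2 * R / ‖θ‖ + 1 := by
  have hθ' : 0 < ‖θ‖ := norm_pos_iff.2 hθ
  set T := (Finset.range N).filter fun a : ℕ => ‖c + (a : ℝ) • θ‖ ≤ R with hT
  rcases T.eq_empty_or_nonempty with h | h
  · rw [h, Finset.card_empty, Nat.cast_zero]
    positivity
  · set a₀ := T.min' h with ha₀
    have h0 : a₀ ∈ T := Finset.min'_mem _ _
    have h1 : T ⊆ Finset.Icc a₀ (a₀ + ⌊2 * R / ‖θ‖⌋₊) := by
      intro a ha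
      have h2 : a₀ ≤ a := Finset.min'_le _ _ ha
      have h3 := (Finset.mem_filter.1 ha).2
      have h4 := (Finset.mem_filter.1 h0).2
      have h5 : ((a : ℝ) - a₀) * ‖θ‖ ≤ 2 * R := by
        have h6 : ‖((a : ℝ) - a₀) • θ‖ ≤ 2 * R := by
          have h7 : ((a : ℝ) - a₀) • θ = (c + (a : ℝ) • θ) - (c + (a₀ : ℝ) • θ) := by
            rw [sub_smul]
            abel
          rw [h7]
          refine (norm_sub_le _ _).trans ?_
          linarith
        rw [norm_smul, Real.norm_eq_abs, abs_of_nonneg] at h6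
        · exact h6
        · have : (a₀ : ℝ) ≤ a := by exact_mod_cast h2
          linarith
      have h8 : ((a - a₀ : ℕ) : ℝ) ≤ 2 * R / ‖θ‖ := by
        rw [Nat.cast_sub h2, le_div_iff₀ hθ']
        exact h5
      have h9 : a - a₀ ≤ ⌊2 * R / ‖θ‖⌋₊ := Nat.le_floor h8
      rw [Finset.mem_Icc]
      omega
    have h2 := Finset.card_le_card h1
    rw [Nat.card_Icc] at h2
    have h3 : T.card ≤ ⌊2 * R / ‖θ‖⌋₊ + 1 := by omega
    have h4 : (⌊2 * R / ‖θ‖⌋₊ : ℝ) ≤ 2 * R / ‖θ‖ := Nat.floor_le (by positivity)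
    calc (T.card : ℝ) ≤ ((⌊2 * R / ‖θ‖⌋₊ + 1 : ℕ) : ℝ) := by exact_mod_cast h3
      _ = (⌊2 * R / ‖θ‖⌋₊ : ℝ) + 1 := by push_cast; rfl
      _ ≤ _ := by linarith

/-- The averages of the rates along arithmetic progressions. -/
theorem line_avg {r : ℝ → ℝ} (hr0 : ∀ x, 0 ≤ r x) (hr : Antitone r) {θ : V} (hθ : θ ≠ 0) (c : V)
    {N : ℕ} (hN : 1 ≤ N) :
    ∑ a ∈ Finset.range N, r ‖c + (a : ℝ) • θ‖ ≤
      N * ((2 / ‖θ‖ + 1) * (r 0 * (Real.sqrt N)⁻¹ + r (Real.sqrt N))) := by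
  have hθ' : 0 < ‖θ‖ := norm_pos_iff.2 hθ
  have hN' : (1 : ℝ) ≤ N := by exact_mod_cast hN
  have hq : 1 ≤ Real.sqrt N := Real.one_le_sqrt.2 hN'
  have h1 : ∑ a ∈ Finset.range N, r ‖c + (a : ℝ) • θ‖ ≤
      ∑ a ∈ Finset.range N, ((if ‖c + (a : ℝ) • θ‖ ≤ Real.sqrt N then r 0 else 0) +
        r (Real.sqrt N)) := by
    refine Finset.sum_le_sum fun a _ => ?_
    split_ifs with h
    · have := hr (norm_nonneg (c + (a : ℝ) • θ))
      linarith [hr0 (Real.sqrt N)]
    · rw [zero_add]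
      exact hr (not_le.1 h).le
  refine h1.trans ?_
  rw [Finset.sum_add_distrib, ← Finset.sum_filter, Finset.sum_const, Finset.sum_const,
    Finset.card_range, nsmul_eq_mul, nsmul_eq_mul]
  have h2 := count_line hθ c N (Real.sqrt_nonneg N)
  have h3 : 2 * Real.sqrt N / ‖θ‖ + 1 ≤ (2 / ‖θ‖ + 1) * Real.sqrt N := by
    have : 2 * Real.sqrt N / ‖θ‖ = 2 / ‖θ‖ * Real.sqrt N := by ring
    rw [this, add_mul]
    linarith
  have h4 : (N : ℝ) * (Real.sqrt N)⁻¹ = Real.sqrt N := by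
    rw [← div_eq_mul_inv, Real.div_sqrt]
  have h5 := mul_le_mul_of_nonneg_right (h2.trans h3) (hr0 0)
  have h6 : (N : ℝ) * r (Real.sqrt N) ≤ (2 / ‖θ‖ + 1) * (N * r (Real.sqrt N)) := by
    have h7 : (0 : ℝ) ≤ 2 / ‖θ‖ := by positivity
    have h8 : (0 : ℝ) ≤ N * r (Real.sqrt N) := mul_nonneg (by positivity) (hr0 _)
    nlinarith
  calc _ ≤ (2 / ‖θ‖ + 1) * Real.sqrt N * r 0 + (2 / ‖θ‖ + 1) * (N * r (Real.sqrt N)) :=
        add_le_add h5 h6
    _ = (2 / ‖θ‖ + 1) * (N * (Real.sqrt N)⁻¹) * r 0 + (2 / ‖θ‖ + 1) * (N * r (Real.sqrt N)) := by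
        rw [h4]
    _ = _ := by ring

end line

end Pool.Agent.K3h50.MB
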